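import Mathlib
import Pool.Agent.Helper602.MK.J5b

/-! Trigonometric approximation of the indicator functions of intervals. -/

set_option autoImplicit false

namespace Pool.Agent.W5h88.BP

open Finset
open Pool.Agent.Helper602.MK (ee)
open Pool.Agent.Helper602.MK.N_J5b (ee_add ee_zero ee_conj norm_ee KD KD_far KD_double KD_nonneg
  ee_int ee_nat_mul orth_sum)

/-- the smoothed indicator function of a set of residues modulo `K` -/
noncomputable def tau (K : ℕ) (I : Finset ℕ) (x : ℝ) : ℝ :=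
  (∑ m ∈ I, KD K (x - m / K)) / (K : ℝ) ^ 2

/-- its coefficients -/
noncomputable def cf (K : ℕ) (I : Finset ℕ) (p : ℕ × ℕ) : ℂ :=
  (∑ m ∈ I, ee (-(((p.1 : ℝ) - p.2) * (m / K)))) / (K : ℂ) ^ 2

theorem tau_nonneg (K : ℕ) (I : Finset ℕ) (x : ℝ) : 0 ≤ tau K I x := by
  unfold tau
  have : 0 ≤ ∑ m ∈ I, KD K (x - m / K) := sum_nonneg fun m _ => KD_nonneg _ _
  positivity

theorem tau_expand (K : ℕ) (I : Finset ℕ) (x : ℝ) :
    ((tau K I x : ℝ) : ℂ) = ∑ p ∈ range K ×ˢ range K, cf K I p * ee (((p.1 : ℝ) - p.2) * x) := by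
  unfold tau cf
  push_cast
  simp only [KD_double]
  rw [sum_div, sum_product]
  simp only [div_mul_eq_mul_div, sum_div, sum_mul]
  rw [sum_comm]
  refine sum_congr rfl fun j _ => ?_
  rw [sum_comm]
  refine sum_congr rfl fun l _ => ?_
  refine sum_congr rfl fun m _ => ?_
  congr 1
  rw [← ee_add]
  congr 1
  ring

theorem cf_diag (K : ℕ) (I : Finset ℕ) (j : ℕ) : cf K I (j, j) = (I.card : ℂ) / (K : ℂ) ^ 2 := by
  unfold cf
  simp [ee_zero]

theorem norm_cf_le {K : ℕ} {I : Finset ℕ} (hI : I ⊆ range K) (p : ℕ × ℕ) :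
    ‖cf K I p‖ ≤ 1 / K := by
  rcases Nat.eq_zero_or_pos K with h0 | h0
  · subst h0
    have : I = ∅ := by simpa using hI
    subst this
    simp [cf]
  have hK : (0 : ℝ) < K := by exact_mod_cast h0
  unfold cf
  rw [norm_div, norm_pow, Complex.norm_natCast]
  have h1 : ‖∑ m ∈ I, ee (-(((p.1 : ℝ) - p.2) * (m / K)))‖ ≤ K := by
    refine (norm_sum_le _ _).trans ?_
    simp only [norm_ee, sum_const, nsmul_eq_mul, mul_one]
    have := card_le_card hI
    rw [card_range] at this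
    exact_mod_cast this
  rw [div_le_div_iff₀ (by positivity) hK]
  nlinarith

theorem tau_range {K : ℕ} (hK : 1 ≤ K) (x : ℝ) : tau K (range K) x = 1 := by
  have hK0 : (0 : ℝ) < K := by exact_mod_cast hK
  have hKc : (K : ℂ) ≠ 0 := by exact_mod_cast hK0.ne'
  have h : ((tau K (range K) x : ℝ) : ℂ) = 1 := by
    rw [tau_expand, sum_product]
    have h1 : ∀ j ∈ range K, ∑ l ∈ range K, cf K (range K) (j, l) *
        ee ((((j, l) : ℕ × ℕ).1 - ((j, l) : ℕ × ℕ).2 : ℝ) * x) = 1 / K := by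
      intro j hj
      rw [sum_eq_single j]
      · rw [cf_diag, sub_self, zero_mul, ee_zero, card_range, mul_one]
        field_simp
      · intro l hl hlj
        have h2 := orth_sum K hK ((j : ℤ) - l) 0
        have h3 : ¬ (K : ℤ) ∣ (j : ℤ) - l := by
          rw [mem_range] at hj hl
          rintro ⟨c, hc⟩
          rcases lt_trichotomy c 0 with h | h | h
          · nlinarith
          · rw [h, mul_zero] at hc
            omega
          · nlinarith
        rw [if_neg h3, norm_eq_zero] at h2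
        have h4 : cf K (range K) (j, l) = 0 := by
          unfold cf
          rw [show ∑ m ∈ range K, ee (-((((j, l) : ℕ × ℕ).1 - ((j, l) : ℕ × ℕ).2 : ℝ) * (m / K))) =
            ∑ η ∈ range K, ee ((((j : ℤ) - l : ℤ) : ℝ) * ((0 : ℝ) / K - (η : ℝ) / K)) from
            sum_congr rfl fun m _ => by congr 1; push_cast; ring, h2, zero_div]
        rw [h4, zero_mul]
      · intro h
        exact absurd hj h
    rw [sum_congr rfl h1, sum_const, card_range, nsmul_eq_mul]
    field_simp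
  exact_mod_cast h

theorem tau_split {K : ℕ} (hK : 1 ≤ K) {I : Finset ℕ} (hI : I ⊆ range K) (x : ℝ) :
    tau K I x + tau K (range K \ I) x = 1 := by
  rw [← tau_range hK x]
  unfold tau
  rw [← add_div, ← sum_sdiff hI, add_comm]

theorem tau_le_one {K : ℕ} (hK : 1 ≤ K) {I : Finset ℕ} (hI : I ⊆ range K) (x : ℝ) :
    tau K I x ≤ 1 := by
  have := tau_split hK hI x
  have h2 := tau_nonneg K (range K \ I) x
  linarith

theorem tau_far {K : ℕ} (hK : 1 ≤ K) {I : Finset ℕ} (hI : I ⊆ range K) {x η : ℝ} (hη : 0 < η)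
    (h : ∀ m ∈ I, ∀ n : ℤ, η ≤ |x - m / K - n|) : tau K I x ≤ 1 / (4 * η ^ 2 * K) := by
  have hK0 : (0 : ℝ) < K := by exact_mod_cast hK
  unfold tau
  have h1 : ∑ m ∈ I, KD K (x - m / K) ≤ K * (1 / (4 * η ^ 2)) := by
    calc ∑ m ∈ I, KD K (x - m / K) ≤ ∑ m ∈ I, 1 / (4 * η ^ 2) :=
          sum_le_sum fun m hm => KD_far K _ η hη (h m hm)
      _ = I.card * (1 / (4 * η ^ 2)) := by rw [sum_const, nsmul_eq_mul]
      _ ≤ _ := by
        apply mul_le_mul_of_nonneg_right _ (by positivity)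
        have := card_le_card hI
        rw [card_range] at this
        exact_mod_cast this
  rw [div_le_div_iff₀ (by positivity) (by positivity)]
  have h2 : K * (1 / (4 * η ^ 2)) * (4 * η ^ 2 * K) = (K : ℝ) ^ 2 := by field_simp
  nlinarith [mul_le_mul_of_nonneg_right h1 (show 0 ≤ 4 * η ^ 2 * (K : ℝ) by positivity)]

/-! ### counting -/

theorem card_between (K : ℕ) (p q : ℝ) (hpq : p ≤ q) :
    (((range K).filter fun m : ℕ => p < m ∧ (m : ℝ) < q).card : ℝ) ≤ q - p + 1 := by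
  set S := (range K).filter fun m : ℕ => p < m ∧ (m : ℝ) < q with hS
  rcases S.eq_empty_or_nonempty with h0 | h0
  · rw [h0, card_empty]
    push_cast
    linarith
  · have h1 : S ⊆ Icc (S.min' h0) (S.max' h0) := fun a ha => mem_Icc.2 ⟨S.min'_le a ha, S.le_max' a ha⟩
    have h2 := card_le_card h1
    rw [Nat.card_Icc] at h2
    have h3 := S.min'_mem h0
    have h4 := S.max'_mem h0
    have h5 : S.min' h0 ≤ S.max' h0 := S.min'_le _ h4
    replace h3 := (mem_filter.1 h3).2
    replace h4 := (mem_filter.1 h4).2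
    have h6 : (S.card : ℝ) ≤ (S.max' h0 : ℝ) + 1 - S.min' h0 := by
      have : S.card + S.min' h0 ≤ S.max' h0 + 1 := by omega
      have h7 : ((S.card + S.min' h0 : ℕ) : ℝ) ≤ ((S.max' h0 + 1 : ℕ) : ℝ) := by exact_mod_cast this
      push_cast at h7
      linarith
    linarith [h3.1, h4.2]

theorem le_card_between (K : ℕ) (p q : ℝ) (hp : 0 ≤ p) (hq : q ≤ K) :
    q - p - 1 ≤ (((range K).filter fun m : ℕ => p ≤ m ∧ (m : ℝ) < q).card : ℝ) := by
  have h1 : Ico ⌈p⌉₊ ⌈q⌉₊ ⊆ (range K).filter fun m : ℕ => p ≤ m ∧ (m : ℝ) < q := by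
    intro m hm
    rw [mem_Ico] at hm
    have h2 : p ≤ m := (Nat.le_ceil p).trans (by exact_mod_cast hm.1)
    have h3 : (m : ℝ) < q := Nat.lt_ceil.1 hm.2
    rw [mem_filter, mem_range]
    refine ⟨?_, h2, h3⟩
    exact_mod_cast h3.trans_le hq
  have h2 := card_le_card h1
  rw [Nat.card_Ico] at h2
  have h3 : (⌈q⌉₊ : ℝ) - ⌈p⌉₊ ≤ ((⌈q⌉₊ - ⌈p⌉₊ : ℕ) : ℝ) := by
    have : ⌈q⌉₊ ≤ (⌈q⌉₊ - ⌈p⌉₊) + ⌈p⌉₊ := by omega
    have h4 : ((⌈q⌉₊ : ℕ) : ℝ) ≤ (((⌈q⌉₊ - ⌈p⌉₊) + ⌈p⌉₊ : ℕ) : ℝ) := by exact_mod_cast this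
    push_cast at h4
    linarith
  have h4 : ((⌈q⌉₊ - ⌈p⌉₊ : ℕ) : ℝ) ≤
      (((range K).filter fun m : ℕ => p ≤ m ∧ (m : ℝ) < q).card : ℝ) := by exact_mod_cast h2
  have h5 := Nat.le_ceil q
  have h6 := Nat.ceil_lt_add_one hp
  linarith

/-! ### the two approximations of an interval -/

open Classical in
/-- the residues close to the interval -/
noncomputable def up (K : ℕ) (A B η : ℝ) : Finset ℕ :=
  (range K).filter fun m : ℕ => (A - η < m / K ∧ (m : ℝ) / K < B + η) ∨ 1 + A - η < m / K ∨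
    (m : ℝ) / K < B + η - 1

open Classical in
/-- the residues well inside the interval -/
noncomputable def dn (K : ℕ) (A B η : ℝ) : Finset ℕ :=
  (range K).filter fun m : ℕ => A + η ≤ m / K ∧ (m : ℝ) / K < B - η

theorem up_sub (K : ℕ) (A B η : ℝ) : up K A B η ⊆ range K := filter_subset _ _

theorem dn_sub (K : ℕ) (A B η : ℝ) : dn K A B η ⊆ range K := filter_subset _ _

/-- the indicator function of the interval -/
noncomputable def chi (A B x : ℝ) : ℝ :=
  open Classical in if A ≤ Int.fract x ∧ Int.fract x < B then 1 else 0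

theorem chi_nonneg (A B x : ℝ) : 0 ≤ chi A B x := by
  unfold chi
  split_ifs <;> norm_num

theorem chi_le_one (A B x : ℝ) : chi A B x ≤ 1 := by
  unfold chi
  split_ifs <;> norm_num

theorem chi_le_up {K : ℕ} (hK : 1 ≤ K) {A B η : ℝ} (hη : 0 < η) (x : ℝ) :
    chi A B x ≤ tau K (up K A B η) x + 1 / (4 * η ^ 2 * K) := by
  have hK0 : (0 : ℝ) < K := by exact_mod_cast hK
  have h0 : 0 ≤ 1 / (4 * η ^ 2 * (K : ℝ)) := by positivity
  unfold chi
  split_ifs with h
  swap
  · have := tau_nonneg K (up K A B η) x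
    linarith
  have h1 := tau_split hK (up_sub K A B η) x
  have h2 : tau K (range K \ up K A B η) x ≤ 1 / (4 * η ^ 2 * K) := by
    refine tau_far hK sdiff_subset hη fun m hm n => ?_
    rw [mem_sdiff, up, mem_filter, not_and] at hm
    obtain ⟨hm1, hm2⟩ := hm
    have hm3 := hm2 hm1
    rw [mem_range] at hm1
    have hmK : (m : ℝ) < K := by exact_mod_cast hm1
    push Not at hm3
    obtain ⟨g1, g2, g3⟩ := hm3
    set y : ℝ := m / K with hy
    have hy0 : 0 ≤ y := by positivity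
    have hy1 : y < 1 := by rw [hy, div_lt_one hK0]; exact hmK
    obtain ⟨hf1, hf2⟩ := h
    set f := Int.fract x with hf
    have hx : x = ⌊x⌋ + f := by rw [hf]; exact (Int.floor_add_fract x).symm
    obtain ⟨k, hk⟩ : ∃ k : ℤ, k = n - ⌊x⌋ := ⟨_, rfl⟩
    have e : x - y - n = f - y - k := by
      rw [hk]; push_cast; linarith
    rw [e]
    rcases lt_trichotomy k 0 with h3 | h3 | h3
    · have h4 : (k : ℝ) ≤ -1 := by exact_mod_cast (by omega : k ≤ -1)
      rw [le_abs]
      left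
      linarith
    · rw [h3]
      push_cast
      rw [le_abs]
      rcases le_or_gt y (A - η) with h5 | h5
      · left; linarith
      · right
        have := g1 h5
        linarith
    · have h4 : (1 : ℝ) ≤ k := by exact_mod_cast (by omega : 1 ≤ k)
      rw [le_abs]
      right
      linarith
  linarith

theorem dn_le_chi {K : ℕ} (hK : 1 ≤ K) {A B η : ℝ} (hA : 0 ≤ A) (hB : B ≤ 1) (hη : 0 < η) (x : ℝ) :
    tau K (dn K A B η) x ≤ chi A B x + 1 / (4 * η ^ 2 * K) := by
  have hK0 : (0 : ℝ) < K := by exact_mod_cast hK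
  have h0 : 0 ≤ 1 / (4 * η ^ 2 * (K : ℝ)) := by positivity
  unfold chi
  split_ifs with h
  · have := tau_le_one hK (dn_sub K A B η) x
    linarith
  rw [zero_add]
  refine tau_far hK (dn_sub K A B η) hη fun m hm n => ?_
  rw [dn, mem_filter, mem_range] at hm
  obtain ⟨hm1, hm2, hm3⟩ := hm
  set y : ℝ := m / K with hy
  have hf1 := Int.fract_nonneg x
  have hf2 := Int.fract_lt_one x
  set f := Int.fract x with hf
  have hx : x = ⌊x⌋ + f := by rw [hf]; exact (Int.floor_add_fract x).symm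
  obtain ⟨k, hk⟩ : ∃ k : ℤ, k = n - ⌊x⌋ := ⟨_, rfl⟩
  have e : x - y - n = f - y - k := by
    rw [hk]; push_cast; linarith
  rw [e]
  rcases lt_trichotomy k 0 with h3 | h3 | h3
  · have h4 : (k : ℝ) ≤ -1 := by exact_mod_cast (by omega : k ≤ -1)
    rw [le_abs]
    left
    linarith
  · rw [h3]
    push_cast
    rw [le_abs]
    rcases lt_or_ge f A with h5 | h5
    · right; linarith
    · left
      have : B ≤ f := by
        by_contra h6
        exact h ⟨h5, lt_of_not_ge h6⟩
      linarith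
  · have h4 : (1 : ℝ) ≤ k := by exact_mod_cast (by omega : 1 ≤ k)
    rw [le_abs]
    right
    linarith

theorem up_card {K : ℕ} (hK : 1 ≤ K) {A B η : ℝ} (hA : 0 ≤ A) (hAB : A ≤ B) (hB : B ≤ 1)
    (hη : 0 < η) : ((up K A B η).card : ℝ) / K ≤ B - A + 4 * η + 4 / K := by
  classical
  have hK0 : (0 : ℝ) < K := by exact_mod_cast hK
  have hsub : up K A B η ⊆
      ((range K).filter fun m : ℕ => (A - η) * K < m ∧ (m : ℝ) < (B + η) * K) ∪
      (((range K).filter fun m : ℕ => (1 - η) * K < m ∧ (m : ℝ) < K) ∪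
      ((range K).filter fun m : ℕ => -1 < (m : ℝ) ∧ (m : ℝ) < η * K)) := by
    intro m hm
    rw [up, mem_filter] at hm
    obtain ⟨hm1, hm2⟩ := hm
    have hmK : (m : ℝ) < K := by
      rw [mem_range] at hm1
      exact_mod_cast hm1
    have hm0 : (0 : ℝ) ≤ m := Nat.cast_nonneg m
    rw [mem_union, mem_union, mem_filter, mem_filter, mem_filter]
    rcases hm2 with ⟨h1, h2⟩ | h1 | h1
    · left
      rw [lt_div_iff₀ hK0] at h1
      rw [div_lt_iff₀ hK0] at h2
      exact ⟨hm1, h1, h2⟩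
    · right; left
      rw [lt_div_iff₀ hK0] at h1
      refine ⟨hm1, lt_of_le_of_lt ?_ h1, hmK⟩
      nlinarith
    · right; right
      rw [div_lt_iff₀ hK0] at h1
      refine ⟨hm1, by linarith, lt_of_lt_of_le h1 ?_⟩
      nlinarith
  have h1 := (card_le_card hsub).trans ((card_union_le _ _).trans
    (Nat.add_le_add_left (card_union_le _ _) _))
  have h2 := card_between K ((A - η) * K) ((B + η) * K) (by nlinarith)
  have h3 := card_between K ((1 - η) * K) K (by nlinarith)
  have h4 := card_between K (-1) (η * K) (by nlinarith)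
  have h6 : ((up K A B η).card : ℝ) ≤
      (((range K).filter fun m : ℕ => (A - η) * K < m ∧ (m : ℝ) < (B + η) * K).card : ℝ) +
      ((((range K).filter fun m : ℕ => (1 - η) * K < m ∧ (m : ℝ) < K).card : ℝ) +
      (((range K).filter fun m : ℕ => -1 < (m : ℝ) ∧ (m : ℝ) < η * K).card : ℝ)) := by
    exact_mod_cast h1
  rw [div_le_iff₀ hK0]
  have e : (B - A + 4 * η + 4 / K) * K = (B - A + 4 * η) * K + 4 := by field_simp
  rw [e]
  refine h6.trans ?_
  nlinarith

theorem dn_card {K : ℕ} (hK : 1 ≤ K) {A B η : ℝ} (hA : 0 ≤ A) (hB : B ≤ 1) (hη : 0 < η) :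
    B - A - 4 * η - 4 / K ≤ ((dn K A B η).card : ℝ) / K := by
  classical
  have hK0 : (0 : ℝ) < K := by exact_mod_cast hK
  have hsub : ((range K).filter fun m : ℕ => (A + η) * K ≤ m ∧ (m : ℝ) < (B - η) * K) ⊆
      dn K A B η := by
    intro m hm
    rw [mem_filter] at hm
    obtain ⟨h1, h2, h3⟩ := hm
    rw [dn, mem_filter]
    exact ⟨h1, (le_div_iff₀ hK0).2 h2, (div_lt_iff₀ hK0).2 h3⟩
  have h1 := le_card_between K ((A + η) * K) ((B - η) * K) (by positivity) (by nlinarith)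
  have h2 : (((range K).filter fun m : ℕ => (A + η) * K ≤ m ∧ (m : ℝ) < (B - η) * K).card : ℝ) ≤
      ((dn K A B η).card : ℝ) := by exact_mod_cast card_le_card hsub
  rw [le_div_iff₀ hK0]
  have e : (B - A - 4 * η - 4 / K) * K = (B - A - 4 * η) * K - 4 := by field_simp
  rw [e]
  nlinarith

end Pool.Agent.W5h88.BP
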