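import Mathlib
import Pool.Agent.W5h88.BP.Fej

/-! A discrepancy bound in several dimensions, from exponential sums. -/

set_option autoImplicit false

namespace Pool.Agent.W5h88.BP

open Finset
open Pool.Agent.Helper602.MK (ee)
open Pool.Agent.Helper602.MK.N_J5b (ee_add ee_zero ee_conj norm_ee KD KD_far KD_double KD_nonneg
  ee_int ee_nat_mul orth_sum)

theorem ee_sum {ι : Type*} (s : Finset ι) (f : ι → ℝ) : ee (∑ i ∈ s, f i) = ∏ i ∈ s, ee (f i) := by
  classical
  induction s using Finset.induction_on with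
  | empty => simp [ee_zero]
  | insert a s ha ih => rw [sum_insert ha, prod_insert ha, ee_add, ih]

theorem prod_le_add {ι : Type*} (s : Finset ι) (a b : ι → ℝ) {ε : ℝ} (hε : 0 ≤ ε)
    (ha0 : ∀ i, 0 ≤ a i) (ha1 : ∀ i, a i ≤ 1) (hb0 : ∀ i, 0 ≤ b i) (hb1 : ∀ i, b i ≤ 1)
    (hab : ∀ i, a i ≤ b i + ε) : ∏ i ∈ s, a i ≤ ∏ i ∈ s, b i + s.card * ε := by
  classical
  induction s using Finset.induction_on with
  | empty => simp
  | insert j s hj ih =>
    rw [prod_insert hj, prod_insert hj, card_insert_of_notMem hj]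
    have h1 : 0 ≤ ∏ i ∈ s, b i := prod_nonneg fun i _ => hb0 i
    have h2 : ∏ i ∈ s, b i ≤ 1 := prod_le_one (fun i _ => hb0 i) fun i _ => hb1 i
    have h3 : a j * ∏ i ∈ s, a i ≤ a j * (∏ i ∈ s, b i + s.card * ε) :=
      mul_le_mul_of_nonneg_left ih (ha0 j)
    have h4 : a j * ∏ i ∈ s, b i ≤ (b j + ε) * ∏ i ∈ s, b i := mul_le_mul_of_nonneg_right (hab j) h1
    have h5 : a j * (s.card * ε) ≤ 1 * (s.card * ε) :=
      mul_le_mul_of_nonneg_right (ha1 j) (by positivity)
    have h6 : ε * ∏ i ∈ s, b i ≤ ε * 1 := mul_le_mul_of_nonneg_left h2 hε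
    push_cast
    linarith

theorem cf_diag_sum {K : ℕ} (hK : 1 ≤ K) (I : Finset ℕ) :
    ∑ p ∈ range K ×ˢ range K, (if p.1 = p.2 then cf K I p else 0) = (I.card : ℂ) / K := by
  have hKc : (K : ℂ) ≠ 0 := by exact_mod_cast (by omega : K ≠ 0)
  rw [sum_product]
  have h1 : ∀ j ∈ range K, ∑ l ∈ range K, (if ((j, l) : ℕ × ℕ).1 = ((j, l) : ℕ × ℕ).2 then
      cf K I (j, l) else 0) = (I.card : ℂ) / K ^ 2 := by
    intro j hj
    rw [sum_eq_single j]
    · rw [if_pos rfl, cf_diag]
    · intro l _ hl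
      rw [if_neg]
      exact fun h => hl h.symm
    · intro h
      exact absurd hj h
  rw [sum_congr rfl h1, sum_const, card_range, nsmul_eq_mul]
  field_simp

theorem prod_tau {r K J : ℕ} (hK : 1 ≤ K) (x : Fin r → ℕ → ℝ) {E : ℝ} (hE : 0 ≤ E)
    (h : ∀ h : Fin r → ℤ, h ≠ 0 → (∀ i, |h i| < K) →
      ‖∑ n ∈ range J, ee (∑ i, h i * x i n)‖ ≤ E)
    (I : Fin r → Finset ℕ) (hI : ∀ i, I i ⊆ range K) :
    |∑ n ∈ range J, ∏ i, tau K (I i) (x i n) - J * ∏ i, ((I i).card : ℝ) / K| ≤ (K : ℝ) ^ r * E := by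
  classical
  have hK0 : (0 : ℝ) < K := by exact_mod_cast hK
  set R : Finset (ℕ × ℕ) := range K ×ˢ range K with hR
  set F : Finset (Fin r → ℕ × ℕ) := Fintype.piFinset fun _ => R with hF
  have e1 : ((∑ n ∈ range J, ∏ i, tau K (I i) (x i n) - J * ∏ i, ((I i).card : ℝ) / K : ℝ) : ℂ) =
      ∑ φ ∈ F, ((∏ i, cf K (I i) (φ i)) * (∑ n ∈ range J,
        ee (∑ i, (((φ i).1 : ℝ) - (φ i).2) * x i n)) -
        J * ∏ i, (if (φ i).1 = (φ i).2 then cf K (I i) (φ i) else 0)) := by
    push_cast
    rw [sum_sub_distrib, ← mul_sum]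
    congr 1
    · have h1 : ∀ n ∈ range J, ∏ i, ((tau K (I i) (x i n) : ℝ) : ℂ) =
          ∑ φ ∈ F, (∏ i, cf K (I i) (φ i)) * ee (∑ i, (((φ i).1 : ℝ) - (φ i).2) * x i n) := by
        intro n _
        simp only [tau_expand]
        rw [prod_univ_sum]
        refine sum_congr rfl fun φ _ => ?_
        rw [ee_sum, ← prod_mul_distrib]
      rw [sum_congr rfl h1, sum_comm]
      refine sum_congr rfl fun φ _ => ?_
      rw [mul_sum]
    · congr 1
      have h2 : ∀ i ∈ (univ : Finset (Fin r)), ((I i).card : ℂ) / K =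
          ∑ p ∈ R, (if p.1 = p.2 then cf K (I i) p else 0) := fun i _ => (cf_diag_sum hK _).symm
      rw [prod_congr rfl h2, prod_univ_sum]
  have e2 : |∑ n ∈ range J, ∏ i, tau K (I i) (x i n) - J * ∏ i, ((I i).card : ℝ) / K| =
      ‖((∑ n ∈ range J, ∏ i, tau K (I i) (x i n) - J * ∏ i, ((I i).card : ℝ) / K : ℝ) : ℂ)‖ := by
    rw [Complex.norm_real, Real.norm_eq_abs]
  rw [e2, e1]
  have h3 : ∀ φ ∈ F, ‖(∏ i, cf K (I i) (φ i)) * (∑ n ∈ range J,
        ee (∑ i, (((φ i).1 : ℝ) - (φ i).2) * x i n)) -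
        J * ∏ i, (if (φ i).1 = (φ i).2 then cf K (I i) (φ i) else 0)‖ ≤ (1 / (K : ℝ)) ^ r * E := by
    intro φ hφ
    rw [hF, Fintype.mem_piFinset] at hφ
    by_cases hd : ∀ i, (φ i).1 = (φ i).2
    · have h4 : ∑ n ∈ range J, ee (∑ i, (((φ i).1 : ℝ) - (φ i).2) * x i n) = J := by
        have : ∀ n ∈ range J, ee (∑ i, (((φ i).1 : ℝ) - (φ i).2) * x i n) = 1 := by
          intro n _
          have : ∑ i, (((φ i).1 : ℝ) - (φ i).2) * x i n = 0 := by
            refine sum_eq_zero fun i _ => ?_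
            rw [hd i, sub_self, zero_mul]
          rw [this, ee_zero]
        rw [sum_congr rfl this]
        simp
      have h5 : ∏ i, (if (φ i).1 = (φ i).2 then cf K (I i) (φ i) else 0) =
          ∏ i, cf K (I i) (φ i) := prod_congr rfl fun i _ => if_pos (hd i)
      rw [h4, h5, mul_comm, sub_self, norm_zero]
      positivity
    · push Not at hd
      obtain ⟨i₀, hi₀⟩ := hd
      have h5 : ∏ i, (if (φ i).1 = (φ i).2 then cf K (I i) (φ i) else 0) = 0 :=
        prod_eq_zero (mem_univ i₀) (if_neg hi₀)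
      rw [h5, mul_zero, sub_zero, norm_mul, norm_prod]
      apply mul_le_mul _ _ (norm_nonneg _) (by positivity)
      · calc ∏ i, ‖cf K (I i) (φ i)‖ ≤ ∏ _i : Fin r, (1 / (K : ℝ)) :=
            prod_le_prod (fun i _ => norm_nonneg _) fun i _ => norm_cf_le (hI i) _
          _ = _ := by rw [prod_const, card_univ, Fintype.card_fin]
      · have h6 := h (fun i => ((φ i).1 : ℤ) - (φ i).2) (by
          intro h7
          have := congrFun h7 i₀
          simp only [Pi.zero_apply] at this
          omega) (by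
          intro i
          have := hφ i
          rw [hR, mem_product, mem_range, mem_range] at this
          rw [abs_lt]
          omega)
        push_cast at h6
        exact h6
  refine (norm_sum_le_of_le _ h3).trans (le_of_eq ?_)
  rw [sum_const, nsmul_eq_mul, hF, Fintype.card_piFinset, prod_const, card_univ, Fintype.card_fin, hR,
    card_product, card_range]
  push_cast
  rw [← mul_assoc, ← mul_pow]
  congr 2
  field_simp

theorem disc {r K J : ℕ} (hK : 1 ≤ K) (x : Fin r → ℕ → ℝ) {E η : ℝ} (hE : 0 ≤ E) (hη : 0 < η)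
    (h : ∀ h : Fin r → ℤ, h ≠ 0 → (∀ i, |h i| < K) →
      ‖∑ n ∈ range J, ee (∑ i, h i * x i n)‖ ≤ E)
    (A B : Fin r → ℝ) (hA : ∀ i, 0 ≤ A i) (hAB : ∀ i, A i ≤ B i) (hB : ∀ i, B i ≤ 1) :
    |∑ n ∈ range J, ∏ i, chi (A i) (B i) (x i n) - J * ∏ i, (B i - A i)| ≤
      r * (1 / (4 * η ^ 2 * K) + (4 * η + 4 / K)) * J + (K : ℝ) ^ r * E := by
  have hK0 : (0 : ℝ) < K := by exact_mod_cast hK
  have hJ0 : (0 : ℝ) ≤ J := Nat.cast_nonneg J
  have hε : 0 ≤ 1 / (4 * η ^ 2 * (K : ℝ)) := by positivity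
  have hδ : 0 ≤ 4 * η + 4 / (K : ℝ) := by positivity
  rw [abs_le]
  constructor
  · have h1 := prod_tau hK x hE h (fun i => dn K (A i) (B i) η) (fun i => dn_sub _ _ _ _)
    rw [abs_le] at h1
    have h2 : ∑ n ∈ range J, ∏ i, tau K (dn K (A i) (B i) η) (x i n) ≤
        ∑ n ∈ range J, (∏ i, chi (A i) (B i) (x i n) + r * (1 / (4 * η ^ 2 * K))) := by
      refine sum_le_sum fun n _ => ?_
      have := prod_le_add univ (fun i => tau K (dn K (A i) (B i) η) (x i n))
        (fun i => chi (A i) (B i) (x i n)) hε (fun i => tau_nonneg _ _ _)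
        (fun i => tau_le_one hK (dn_sub _ _ _ _) _) (fun i => chi_nonneg _ _ _)
        (fun i => chi_le_one _ _ _) (fun i => dn_le_chi hK (hA i) (hB i) hη _)
      rwa [card_univ, Fintype.card_fin] at this
    rw [sum_add_distrib, sum_const, card_range, nsmul_eq_mul] at h2
    have h3 : ∏ i, (B i - A i) ≤ ∏ i, ((dn K (A i) (B i) η).card : ℝ) / K +
        r * (4 * η + 4 / K) := by
      have := prod_le_add univ (fun i => B i - A i)
        (fun i => ((dn K (A i) (B i) η).card : ℝ) / K) hδ (fun i => by linarith [hAB i])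
        (fun i => by linarith [hA i, hB i]) (fun i => by positivity)
        (fun i => by
          rw [div_le_one hK0]
          have := card_le_card (dn_sub K (A i) (B i) η)
          rw [card_range] at this
          exact_mod_cast this)
        (fun i => by
          have := dn_card hK (hA i) (hB i) hη
          linarith)
      rwa [card_univ, Fintype.card_fin] at this
    have h4 := mul_le_mul_of_nonneg_left h3 hJ0
    nlinarith [h1.1]
  · have h1 := prod_tau hK x hE h (fun i => up K (A i) (B i) η) (fun i => up_sub _ _ _ _)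
    rw [abs_le] at h1
    have h2 : ∑ n ∈ range J, ∏ i, chi (A i) (B i) (x i n) ≤
        ∑ n ∈ range J, (∏ i, tau K (up K (A i) (B i) η) (x i n) + r * (1 / (4 * η ^ 2 * K))) := by
      refine sum_le_sum fun n _ => ?_
      have := prod_le_add univ (fun i => chi (A i) (B i) (x i n))
        (fun i => tau K (up K (A i) (B i) η) (x i n)) hε (fun i => chi_nonneg _ _ _)
        (fun i => chi_le_one _ _ _) (fun i => tau_nonneg _ _ _)
        (fun i => tau_le_one hK (up_sub _ _ _ _) _) (fun i => chi_le_up hK hη _)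
      rwa [card_univ, Fintype.card_fin] at this
    rw [sum_add_distrib, sum_const, card_range, nsmul_eq_mul] at h2
    have h3 : ∏ i, ((up K (A i) (B i) η).card : ℝ) / K ≤ ∏ i, (B i - A i) +
        r * (4 * η + 4 / K) := by
      have := prod_le_add univ (fun i => ((up K (A i) (B i) η).card : ℝ) / K)
        (fun i => B i - A i) hδ (fun i => by positivity)
        (fun i => by
          rw [div_le_one hK0]
          have := card_le_card (up_sub K (A i) (B i) η)
          rw [card_range] at this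
          exact_mod_cast this)
        (fun i => by linarith [hAB i])
        (fun i => by linarith [hA i, hB i])
        (fun i => by
          have := up_card hK (hA i) (hAB i) (hB i) hη
          linarith)
      rwa [card_univ, Fintype.card_fin] at this
    have h4 := mul_le_mul_of_nonneg_left h3 hJ0
    nlinarith [h1.2]

end Pool.Agent.W5h88.BP
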