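import Mathlib
import Pool.Agent.W5h88.BP.Disc
import Pool.Agent.W5h23.G.Block

/-! The phases `log_a |T^t x| + t log_a 2` vary slowly along a trajectory. -/

set_option autoImplicit false

namespace Pool.Agent.W5h88.BP

open Finset Pool.Agent.TH926.OSG
open Pool.Agent.W5h23.G (log_step')
open Pool.Agent.Helper602.MK (ee)
open Pool.Agent.Helper602.MK.N_J5b (ee_add ee_zero ee_conj norm_ee ee_int ee_nat_mul ee_add_int
  norm_one_sub_ee)

/-! ### exponentials -/

theorem ee_sub_one_le (t : ℝ) : ‖ee t - 1‖ ≤ 2 * Real.pi * |t| := by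
  rw [norm_sub_rev, norm_one_sub_ee]
  have h : |Real.sin (Real.pi * t)| ≤ |Real.pi * t| := Real.abs_sin_le_abs
  rw [abs_mul, abs_of_pos Real.pi_pos] at h
  linarith

theorem ee_sub_le (x y : ℝ) : ‖ee x - ee y‖ ≤ 2 * Real.pi * |x - y| := by
  have e : ee x - ee y = ee y * (ee (x - y) - 1) := by
    rw [mul_sub, ← ee_add, mul_one]
    congr 2
    ring
  rw [e, norm_mul, norm_ee, one_mul]
  exact ee_sub_one_le _

theorem ee_sub_two (x y : ℝ) : ‖ee x - ee y‖ ≤ 2 := by
  refine (norm_sub_le _ _).trans ?_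
  rw [norm_ee, norm_ee]
  norm_num

theorem ee_nat_sub (n : ℕ) (x y : ℝ) : ‖ee (n * x) - ee (n * y)‖ ≤ n * ‖ee x - ee y‖ := by
  induction n with
  | zero => simp
  | succ n ih =>
    have e : ee (((n + 1 : ℕ) : ℝ) * x) - ee (((n + 1 : ℕ) : ℝ) * y) =
        ee (n * x) * (ee x - ee y) + (ee (n * x) - ee (n * y)) * ee y := by
      rw [show ((n + 1 : ℕ) : ℝ) * x = n * x + x by push_cast; ring,
        show ((n + 1 : ℕ) : ℝ) * y = n * y + y by push_cast; ring, ee_add, ee_add]
      ring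
    rw [e]
    refine (norm_add_le _ _).trans ?_
    rw [norm_mul, norm_mul, norm_ee, norm_ee]
    push_cast
    linarith

theorem ee_int_sub (h : ℤ) (x y : ℝ) : ‖ee (h * x) - ee (h * y)‖ ≤ |(h : ℝ)| * ‖ee x - ee y‖ := by
  obtain ⟨n, rfl | rfl⟩ := Int.eq_nat_or_neg h
  · have := ee_nat_sub n x y
    simpa using this
  · have h1 := ee_nat_sub n x y
    have e : ee (((-(n : ℤ) : ℤ) : ℝ) * x) - ee (((-(n : ℤ) : ℤ) : ℝ) * y) =
        (starRingEnd ℂ) (ee (n * x) - ee (n * y)) := by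
      rw [map_sub, ee_conj, ee_conj]
      push_cast
      rw [neg_mul, neg_mul]
    rw [e, RCLike.norm_conj]
    simpa using h1

theorem ee_lin_sub {ι : Type*} (s : Finset ι) (h : ι → ℤ) (x y : ι → ℝ) :
    ‖ee (∑ i ∈ s, h i * x i) - ee (∑ i ∈ s, h i * y i)‖ ≤
      ∑ i ∈ s, |(h i : ℝ)| * ‖ee (x i) - ee (y i)‖ := by
  classical
  induction s using Finset.induction_on with
  | empty => simp
  | insert j s hj ih =>
    rw [sum_insert hj, sum_insert hj, sum_insert hj]
    have e : ee (h j * x j + ∑ i ∈ s, h i * x i) - ee (h j * y j + ∑ i ∈ s, h i * y i) =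
        ee (h j * x j) * (ee (∑ i ∈ s, h i * x i) - ee (∑ i ∈ s, h i * y i)) +
        (ee (h j * x j) - ee (h j * y j)) * ee (∑ i ∈ s, h i * y i) := by
      rw [ee_add, ee_add]
      ring
    rw [e]
    refine (norm_add_le _ _).trans ?_
    rw [norm_mul, norm_mul, norm_ee, norm_ee]
    have := ee_int_sub (h j) (x j) (y j)
    linarith

theorem tele (z : ℕ → ℂ) {m n : ℕ} (h : m ≤ n) :
    ‖z n - z m‖ ≤ ∑ t ∈ Ico m n, ‖z (t + 1) - z t‖ := by
  induction n, h using Nat.le_induction with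
  | base => simp
  | succ n hmn ih =>
    rw [sum_Ico_succ_top hmn]
    calc ‖z (n + 1) - z m‖ = ‖(z (n + 1) - z n) + (z n - z m)‖ := by congr 1; ring
      _ ≤ ‖z (n + 1) - z n‖ + ‖z n - z m‖ := norm_add_le _ _
      _ ≤ _ := by linarith

/-! ### one step -/

variable {a b : ℤ}

/-- the slowly varying phase -/
noncomputable def ph (a b x : ℤ) (t : ℕ) : ℝ :=
  Real.logb a |(((T a b)^[t] x : ℤ) : ℝ)| + t * (Real.log 2 / Real.log a)

theorem ph_step (H : Par a b) (x : ℤ) (t : ℕ) (h0 : (T a b)^[t] x ≠ 0) :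
    ‖ee (ph a b x (t + 1)) - ee (ph a b x t)‖ ≤
      4 * |(b : ℝ)| / |(((T a b)^[t] x : ℤ) : ℝ)| := by
  have hA := H.a_ge
  have hB := H.b_ge
  have hla := H.log_pos
  have hla0 : 0 < Real.log a := by linarith
  unfold ph
  rw [Function.iterate_succ_apply']
  set y := (T a b)^[t] x with hy
  have hyne : (y : ℝ) ≠ 0 := by exact_mod_cast h0
  have hy0 : 0 < |(y : ℝ)| := abs_pos.2 hyne
  rcases par y with h1 | h1
  · have e1 := T_even (a := a) (b := b) h1
    have e2 : (2 : ℝ) * ((T a b y : ℤ) : ℝ) = y := by exact_mod_cast e1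
    have e3 : |((T a b y : ℤ) : ℝ)| = |(y : ℝ)| / 2 := by
      rw [← e2, abs_mul, abs_of_pos (by norm_num : (0 : ℝ) < 2)]; ring
    have e4 : Real.logb a |((T a b y : ℤ) : ℝ)| + ((t + 1 : ℕ) : ℝ) * (Real.log 2 / Real.log a) =
        Real.logb a |(y : ℝ)| + t * (Real.log 2 / Real.log a) := by
      rw [e3, Real.logb, Real.logb, Real.log_div hy0.ne' (by norm_num)]
      push_cast
      field_simp
      ring
    rw [e4, sub_self, norm_zero]
    positivity
  · rcases lt_or_ge |(y : ℝ)| |(b : ℝ)| with h2 | h2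
    · refine (ee_sub_two _ _).trans ?_
      rw [le_div_iff₀ hy0]
      linarith
    · have e1 := T_odd H h1
      have e2 : (2 : ℝ) * ((T a b y : ℤ) : ℝ) = a * y + b := by exact_mod_cast e1
      have h3 := log_step' H h2 le_rfl
      have hne : (a : ℝ) * y + b ≠ 0 := by
        intro h0
        have h5 : |(a : ℝ) * y| = |(b : ℝ)| := by
          have : (a : ℝ) * y = -b := by linarith
          rw [this, abs_neg]
        rw [abs_mul, abs_of_pos (by linarith)] at h5
        nlinarith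
      have e3 : |((T a b y : ℤ) : ℝ)| = |(a : ℝ) * y + b| / 2 := by
        rw [← e2, abs_mul, abs_of_pos (by norm_num : (0 : ℝ) < 2)]; ring
      set err : ℝ := (Real.log |(a : ℝ) * y + b| - Real.log |(y : ℝ)| - Real.log a) / Real.log a
        with herr
      have e4 : Real.logb a |((T a b y : ℤ) : ℝ)| + ((t + 1 : ℕ) : ℝ) * (Real.log 2 / Real.log a) =
          (Real.logb a |(y : ℝ)| + t * (Real.log 2 / Real.log a) + err) + ((1 : ℤ) : ℝ) := by
        rw [e3, herr, Real.logb, Real.logb, Real.log_div (abs_pos.2 hne).ne' (by norm_num)]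
        push_cast
        field_simp
        ring
      rw [e4, ee_add_int]
      refine (ee_sub_le _ _).trans ?_
      rw [add_sub_cancel_left]
      have h4 : |err| ≤ |(b : ℝ)| / (2 * |(y : ℝ)|) := by
        rw [herr, abs_div, abs_of_pos hla0, div_le_iff₀ hla0]
        refine h3.trans ?_
        have : 0 ≤ |(b : ℝ)| / (2 * |(y : ℝ)|) := by positivity
        nlinarith
      have h5 := Real.pi_lt_four
      have h6 := Real.pi_pos
      have h7 : 4 * |(b : ℝ)| / |(y : ℝ)| = 8 * (|(b : ℝ)| / (2 * |(y : ℝ)|)) := by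
        field_simp
        ring
      rw [h7]
      have h8 : 0 ≤ |err| := abs_nonneg _
      nlinarith

/-! ### sums over distinct integers -/

theorem sum_inv_le (K : ℕ) : ∑ n ∈ Icc 1 K, (1 : ℝ) / n ≤ 1 + Real.log K := by
  have h := harmonic_le_one_add_log K
  rw [harmonic_eq_sum_Icc] at h
  push_cast at h
  simpa [one_div] using h

theorem sum_distinct (S : Finset ℤ) (h0 : (0 : ℤ) ∉ S) {K : ℕ} (hK : 1 ≤ K) (hS : S.card ≤ K) :
    ∑ y ∈ S, 1 / |(y : ℝ)| ≤ 3 + 2 * Real.log K := by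
  classical
  have hK0 : (0 : ℝ) < K := by exact_mod_cast hK
  have h1 : ∑ y ∈ S, 1 / |(y : ℝ)| = ∑ y ∈ S.filter (fun y => |y| ≤ (K : ℤ)), 1 / |(y : ℝ)| +
      ∑ y ∈ S.filter (fun y => ¬ |y| ≤ (K : ℤ)), 1 / |(y : ℝ)| :=
    (sum_filter_add_sum_filter_not _ _ _).symm
  have h2 : ∑ y ∈ S.filter (fun y => ¬ |y| ≤ (K : ℤ)), 1 / |(y : ℝ)| ≤ 1 := by
    calc ∑ y ∈ S.filter (fun y => ¬ |y| ≤ (K : ℤ)), 1 / |(y : ℝ)|
        ≤ ∑ y ∈ S.filter (fun y => ¬ |y| ≤ (K : ℤ)), 1 / (K : ℝ) := by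
          refine sum_le_sum fun y hy => ?_
          have := (mem_filter.1 hy).2
          push Not at this
          have h3 : (K : ℝ) ≤ |(y : ℝ)| := by
            have : ((K : ℤ) : ℝ) < ((|y| : ℤ) : ℝ) := by exact_mod_cast this
            push_cast at this
            exact this.le
          exact one_div_le_one_div_of_le hK0 h3
      _ = (S.filter (fun y => ¬ |y| ≤ (K : ℤ))).card * (1 / (K : ℝ)) := by
          rw [sum_const, nsmul_eq_mul]
      _ ≤ K * (1 / (K : ℝ)) := by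
          apply mul_le_mul_of_nonneg_right _ (by positivity)
          exact_mod_cast (card_filter_le _ _).trans hS
      _ = 1 := by field_simp
  have h3 : ∑ y ∈ S.filter (fun y => |y| ≤ (K : ℤ)), 1 / |(y : ℝ)| ≤
      2 * ∑ n ∈ Icc 1 K, (1 : ℝ) / n := by
    have h4 : S.filter (fun y => |y| ≤ (K : ℤ)) ⊆
        (Icc 1 K).image (fun n : ℕ => (n : ℤ)) ∪ (Icc 1 K).image (fun n : ℕ => -(n : ℤ)) := by
      intro y hy
      rw [mem_filter] at hy
      have hy0 : y ≠ 0 := fun h => h0 (h ▸ hy.1)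
      rw [mem_union, mem_image, mem_image]
      rcases lt_or_gt_of_ne hy0 with h5 | h5
      · right
        refine ⟨(-y).toNat, ?_, by omega⟩
        rw [mem_Icc]
        have := hy.2
        rw [abs_of_neg h5] at this
        omega
      · left
        refine ⟨y.toNat, ?_, by omega⟩
        rw [mem_Icc]
        have := hy.2
        rw [abs_of_pos h5] at this
        omega
    calc ∑ y ∈ S.filter (fun y => |y| ≤ (K : ℤ)), 1 / |(y : ℝ)|
        ≤ ∑ y ∈ (Icc 1 K).image (fun n : ℕ => (n : ℤ)) ∪ (Icc 1 K).image (fun n : ℕ => -(n : ℤ)),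
          1 / |(y : ℝ)| := sum_le_sum_of_subset_of_nonneg h4 fun y _ _ => by positivity
      _ ≤ ∑ y ∈ (Icc 1 K).image (fun n : ℕ => (n : ℤ)), 1 / |(y : ℝ)| +
          ∑ y ∈ (Icc 1 K).image (fun n : ℕ => -(n : ℤ)), 1 / |(y : ℝ)| := by
          rw [← sum_union_inter]
          have : 0 ≤ ∑ y ∈ (Icc 1 K).image (fun n : ℕ => (n : ℤ)) ∩
            (Icc 1 K).image (fun n : ℕ => -(n : ℤ)), 1 / |(y : ℝ)| :=
            sum_nonneg fun y _ => by positivity
          linarith
      _ = _ := by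
          rw [sum_image (fun x _ y _ h => by simpa using h),
            sum_image (fun x _ y _ h => by simpa using h), two_mul]
          congr 1
          · refine sum_congr rfl fun n _ => ?_
            push_cast
            rw [abs_of_nonneg (Nat.cast_nonneg n)]
          · refine sum_congr rfl fun n _ => ?_
            push_cast
            rw [abs_neg, abs_of_nonneg (Nat.cast_nonneg n)]
  have h5 := sum_inv_le K
  linarith

/-- the total variation of the phases along a piece of a trajectory with different terms -/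
theorem total_var (H : Par a b) (x : ℤ) (K : ℕ) (hinj : Set.InjOn (fun i => (T a b)^[i] x)
    (Set.Iio K)) : ∑ t ∈ range (K - 1), ‖ee (ph a b x (t + 1)) - ee (ph a b x t)‖ ≤
      4 * |(b : ℝ)| * (3 + 2 * Real.log K) := by
  classical
  rcases Nat.lt_or_ge 1 K with hK | hK
  swap
  · have : K - 1 = 0 := by omega
    rw [this, range_zero, sum_empty]
    have h1 : 0 ≤ Real.log K := Real.log_natCast_nonneg K
    positivity
  have hne : ∀ t ∈ range (K - 1), (T a b)^[t] x ≠ 0 := by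
    intro t ht h0
    rw [mem_range] at ht
    have h1 : (T a b)^[t + 1] x = 0 := by
      rw [Function.iterate_succ_apply', h0]
      rfl
    have := hinj (show t + 1 < K by omega) (show t < K by omega) (by
      show (T a b)^[t + 1] x = (T a b)^[t] x
      rw [h0, h1])
    omega
  calc ∑ t ∈ range (K - 1), ‖ee (ph a b x (t + 1)) - ee (ph a b x t)‖
      ≤ ∑ t ∈ range (K - 1), 4 * |(b : ℝ)| * (1 / |(((T a b)^[t] x : ℤ) : ℝ)|) := by
        refine sum_le_sum fun t ht => ?_
        have := ph_step H x t (hne t ht)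
        rwa [mul_one_div]
    _ = 4 * |(b : ℝ)| * ∑ y ∈ (range (K - 1)).image (fun t => (T a b)^[t] x), 1 / |(y : ℝ)| := by
        rw [← mul_sum, sum_image]
        intro i hi j hj hij
        rw [mem_coe, mem_range] at hi hj
        exact hinj (show i < K by omega) (show j < K by omega) hij
    _ ≤ _ := by
        apply mul_le_mul_of_nonneg_left _ (by positivity)
        apply sum_distinct _ _ (by omega)
        · refine card_image_le.trans ?_
          rw [card_range]
          omega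
        · intro h
          obtain ⟨t, ht, h1⟩ := mem_image.1 h
          exact hne t ht h1

/-! ### summation by parts -/

theorem abel (w g : ℕ → ℂ) (J : ℕ) {M V : ℝ} (hw : ∀ j, ‖w j‖ ≤ 1)
    (hg : ∀ N ≤ J, ‖∑ j ∈ range N, g j‖ ≤ M)
    (hV : ∑ j ∈ range (J - 1), ‖w (j + 1) - w j‖ ≤ V) :
    ‖∑ j ∈ range J, w j * g j‖ ≤ M * (1 + V) := by
  have hM : 0 ≤ M := (norm_nonneg _).trans (hg 0 (Nat.zero_le _))
  have h := sum_range_by_parts w g J
  simp only [smul_eq_mul] at h
  rw [h]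
  refine (norm_sub_le _ _).trans ?_
  have h1 : ‖w (J - 1) * ∑ i ∈ range J, g i‖ ≤ 1 * M := by
    rw [norm_mul]
    exact mul_le_mul (hw _) (hg J le_rfl) (norm_nonneg _) zero_le_one
  have h2 : ‖∑ i ∈ range (J - 1), (w (i + 1) - w i) * ∑ i ∈ range (i + 1), g i‖ ≤ V * M := by
    calc ‖∑ i ∈ range (J - 1), (w (i + 1) - w i) * ∑ i ∈ range (i + 1), g i‖
        ≤ ∑ i ∈ range (J - 1), ‖w (i + 1) - w i‖ * M := by
          refine norm_sum_le_of_le _ fun i hi => ?_
          rw [mem_range] at hi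
          rw [norm_mul]
          exact mul_le_mul_of_nonneg_left (hg _ (by omega)) (norm_nonneg _)
      _ = (∑ i ∈ range (J - 1), ‖w (i + 1) - w i‖) * M := by rw [sum_mul]
      _ ≤ _ := mul_le_mul_of_nonneg_right hV hM
  linarith

theorem sum_mono_Ico (f : ℕ → ℝ) (P : ℕ → ℕ) (hP : Monotone P) (J : ℕ) :
    ∑ j ∈ range J, ∑ t ∈ Ico (P j) (P (j + 1)), f t = ∑ t ∈ Ico (P 0) (P J), f t := by
  induction J with
  | zero => simp
  | succ J ih =>
    rw [sum_range_succ, ih, sum_Ico_consecutive _ (hP (Nat.zero_le _)) (hP (Nat.le_succ _))]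

/-- the weighted sum along the times `P_i (j)` -/
theorem main_sum (H : Par a b) (x : ℤ) (K : ℕ) (hinj : Set.InjOn (fun i => (T a b)^[i] x)
    (Set.Iio K)) {r : ℕ} (P : Fin r → ℕ → ℕ) (hP : ∀ i, Monotone (P i)) (J : ℕ)
    (hJ : ∀ i, ∀ j < J, P i j < K) (h : Fin r → ℤ) {M : ℝ}
    (hM : ∀ N ≤ J, ‖∑ j ∈ range N, ee (-(Real.log 2 / Real.log a) * ∑ i, (h i : ℝ) * (P i j : ℝ))‖
      ≤ M) :
    ‖∑ j ∈ range J, ee (∑ i, (h i : ℝ) * Real.logb a |(((T a b)^[P i j] x : ℤ) : ℝ)|)‖ ≤
      M * (1 + (∑ i, |(h i : ℝ)|) * (4 * |(b : ℝ)| * (3 + 2 * Real.log K))) := by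
  set w : ℕ → ℂ := fun j => ee (∑ i, (h i : ℝ) * ph a b x (P i j)) with hw
  have e : ∀ j, ee (∑ i, (h i : ℝ) * Real.logb a |(((T a b)^[P i j] x : ℤ) : ℝ)|) =
      w j * ee (-(Real.log 2 / Real.log a) * ∑ i, (h i : ℝ) * (P i j : ℝ)) := by
    intro j
    rw [hw]
    simp only
    rw [← ee_add]
    congr 1
    rw [mul_sum, ← sum_add_distrib]
    refine sum_congr rfl fun i _ => ?_
    unfold ph
    ring
  rw [sum_congr rfl fun j _ => e j]
  refine abel w _ J (fun j => (norm_ee _).le) hM ?_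
  set f : ℕ → ℝ := fun t => ‖ee (ph a b x (t + 1)) - ee (ph a b x t)‖ with hf
  have hf0 : ∀ t, 0 ≤ f t := fun t => norm_nonneg _
  have h1 : ∀ j ∈ range (J - 1), ‖w (j + 1) - w j‖ ≤
      ∑ i, |(h i : ℝ)| * ∑ t ∈ Ico (P i j) (P i (j + 1)), f t := by
    intro j _
    refine (ee_lin_sub univ h _ _).trans ?_
    refine sum_le_sum fun i _ => ?_
    exact mul_le_mul_of_nonneg_left (tele (fun t => ee (ph a b x t)) (hP i (Nat.le_succ j)))
      (abs_nonneg _)
  refine (sum_le_sum h1).trans ?_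
  rw [sum_comm, sum_mul]
  refine sum_le_sum fun i _ => ?_
  rw [← mul_sum]
  refine mul_le_mul_of_nonneg_left ?_ (abs_nonneg _)
  rw [sum_mono_Ico f (P i) (hP i)]
  refine le_trans ?_ (total_var H x K hinj)
  rcases Nat.eq_zero_or_pos J with h0 | h0
  · subst h0
    simp only [Nat.zero_sub, Ico_self, sum_empty]
    exact sum_nonneg fun t _ => hf0 t
  · apply sum_le_sum_of_subset_of_nonneg
    · intro t ht
      rw [mem_Ico] at ht
      rw [mem_range]
      have := hJ i (J - 1) (by omega)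
      omega
    · intro t _ _
      exact hf0 t

end Pool.Agent.W5h88.BP
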