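import Mathlib
import Pool.Agent.W5h88.BP.Dyn
import Pool.Agent.H373R2.NB.Weyl

/-! Weyl sums with a phase which is not well approximable. -/

set_option autoImplicit false

namespace Pool.Agent.W5h88.BP

open Finset Polynomial Pool.Agent.H373R2.NB
open Pool.Agent.Helper602.MK (ee)
open Pool.Agent.Helper602.MK.N_J5b (ee_add ee_zero ee_conj norm_ee ee_int ee_nat_mul ee_add_int)

/-- no good approximations -/
def Gd (α X Y : ℝ) : Prop := ∀ k : ℕ, 1 ≤ k → (k : ℝ) ≤ X → ∀ m : ℤ, Y < |k * α - m|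

theorem iw_unif (D : ℕ) : ∃ c m : ℕ, 1 ≤ c ∧ ∀ d, 1 ≤ d → d ≤ D → ∀ (N : ℕ) (u α : ℝ) (φ : ℕ → ℝ),
    1 ≤ N → 1 ≤ u → Ph d α φ → (N : ℝ) ≤ u * ‖∑ n ∈ range N, ee (φ n)‖ →
    ∃ q : ℕ, 1 ≤ q ∧ (q : ℝ) ≤ c * u ^ m ∧ ∃ a : ℤ, |q * α - a| ≤ c * u ^ m / (N : ℝ) ^ d := by
  induction D with
  | zero =>
    refine ⟨1, 0, le_rfl, fun d h1 h2 => ?_⟩
    omega
  | succ D ih =>
    obtain ⟨c, m, hc, h⟩ := ih
    obtain ⟨c', m', hc', h'⟩ := IW_all (D + 1) (by omega)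
    refine ⟨max c c', max m m', hc.trans (le_max_left _ _), fun d h1 h2 N u α φ hN hu hφ hS => ?_⟩
    have hc1 : (c : ℝ) ≤ ((max c c' : ℕ) : ℝ) := by exact_mod_cast le_max_left _ _
    have hc2 : (c' : ℝ) ≤ ((max c c' : ℕ) : ℝ) := by exact_mod_cast le_max_right _ _
    have hm1 : u ^ m ≤ u ^ (max m m') := pow_le_pow_right₀ hu (le_max_left _ _)
    have hm2 : u ^ m' ≤ u ^ (max m m') := pow_le_pow_right₀ hu (le_max_right _ _)
    have hu0 : 0 < u := by linarith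
    have hN0 : (0 : ℝ) < N := by exact_mod_cast hN
    have g1 : (c : ℝ) * u ^ m ≤ ((max c c' : ℕ) : ℝ) * u ^ (max m m') :=
      mul_le_mul hc1 hm1 (by positivity) (by positivity)
    have g2 : (c' : ℝ) * u ^ m' ≤ ((max c c' : ℕ) : ℝ) * u ^ (max m m') :=
      mul_le_mul hc2 hm2 (by positivity) (by positivity)
    rcases Nat.lt_or_ge d (D + 1) with h3 | h3
    · obtain ⟨q, q1, q2, a, ha⟩ := h d h1 (by omega) N u α φ hN hu hφ hS
      exact ⟨q, q1, q2.trans g1, a, ha.trans (div_le_div_of_nonneg_right g1 (by positivity))⟩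
    · have h4 : d = D + 1 := by omega
      subst h4
      obtain ⟨q, q1, q2, a, ha⟩ := h' N u α φ hN hu hφ hS
      exact ⟨q, q1, q2.trans g2, a, ha.trans (div_le_div_of_nonneg_right g2 (by positivity))⟩

theorem weyl (D : ℕ) : ∃ c m : ℕ, 1 ≤ c ∧ ∀ (Q : ℤ[X]) (L u α : ℝ) (J : ℕ), 1 ≤ Q.natDegree →
    Q.natDegree ≤ D → |(Q.leadingCoeff : ℝ)| ≤ L → 1 ≤ J → 1 ≤ u →
    Gd α (c * u ^ m * (D.factorial * L)) (c * u ^ (m + D) / J) →
    ∀ N ≤ J, ‖∑ n ∈ range N, ee (-α * ((Q.eval (n : ℤ) : ℤ) : ℝ))‖ ≤ J / u := by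
  obtain ⟨c, m, hc, h⟩ := iw_unif D
  refine ⟨c, m, hc, ?_⟩
  intro Q L u α J hd hD hL hJ hu hG N hN
  have hu0 : 0 < u := by linarith
  have hJ0 : (0 : ℝ) < J := by exact_mod_cast hJ
  by_contra hcon
  push Not at hcon
  have hS : ‖∑ n ∈ range N, ee (-α * ((Q.eval (n : ℤ) : ℤ) : ℝ))‖ ≤ N := by
    refine (norm_sum_le _ _).trans ?_
    simp [norm_ee]
  have hNJ : (N : ℝ) ≤ J := by exact_mod_cast hN
  have hJN : (J : ℝ) / u < N := hcon.trans_le hS
  have hN0 : (0 : ℝ) < N := lt_of_le_of_lt (by positivity) hJN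
  have hN1 : 1 ≤ N := by
    have : 0 < N := by exact_mod_cast hN0
    omega
  have hcon2 : (N : ℝ) ≤ u * ‖∑ n ∈ range N, ee (-α * ((Q.eval (n : ℤ) : ℤ) : ℝ))‖ := by
    rw [div_lt_iff₀ hu0] at hcon
    linarith
  set d := Q.natDegree with hdd
  obtain ⟨q, hq1, hq2, a, ha⟩ := h d hd hD N u _ _ hN1 hu (Ph_poly d Q le_rfl (-α)) hcon2
  set l : ℤ := Q.coeff d with hl
  have hlead : Q.leadingCoeff = l := by rw [hl, hdd]; rfl
  rw [hlead] at hL
  have hl0 : l ≠ 0 := by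
    rw [← hlead]
    intro h0
    rw [leadingCoeff_eq_zero] at h0
    rw [h0, natDegree_zero] at hdd
    omega
  have hk1 : 1 ≤ q * (d.factorial * l.natAbs) := by
    have h1 := Nat.factorial_pos d
    have h2 : 0 < l.natAbs := Int.natAbs_pos.2 hl0
    exact Nat.mul_pos hq1 (Nat.mul_pos h1 h2)
  have habs : ((l.natAbs : ℕ) : ℝ) = |(l : ℝ)| := by
    rw [← Int.cast_abs, Int.abs_eq_natAbs]
    rfl
  have hfac : (d.factorial : ℝ) ≤ D.factorial := by exact_mod_cast Nat.factorial_le hD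
  have hk2 : ((q * (d.factorial * l.natAbs) : ℕ) : ℝ) ≤ c * u ^ m * (D.factorial * L) := by
    push_cast
    rw [habs]
    apply mul_le_mul hq2 _ (by positivity) (by positivity)
    exact mul_le_mul hfac hL (abs_nonneg _) (by positivity)
  have hY : (c : ℝ) * u ^ m / (N : ℝ) ^ d ≤ c * u ^ (m + D) / J := by
    rw [div_le_div_iff₀ (by positivity) hJ0, pow_add]
    have h1 : (J : ℝ) ≤ u ^ D * N ^ d := by
      rw [div_lt_iff₀ hu0] at hJN
      have h2 : (J : ℝ) ≤ N * u := hJN.le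
      calc (J : ℝ) ≤ (J : ℝ) ^ d := le_self_pow₀ (by exact_mod_cast hJ) (by omega)
        _ ≤ (N * u) ^ d := pow_le_pow_left₀ hJ0.le h2 d
        _ = N ^ d * u ^ d := mul_pow _ _ _
        _ ≤ N ^ d * u ^ D := mul_le_mul_of_nonneg_left (pow_le_pow_right₀ hu hD) (by positivity)
        _ = _ := mul_comm _ _
    calc (c : ℝ) * u ^ m * J ≤ c * u ^ m * (u ^ D * N ^ d) :=
          mul_le_mul_of_nonneg_left h1 (by positivity)
      _ = _ := by ring
  rcases lt_or_gt_of_ne hl0 with h1 | h1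
  · have h2 := hG _ hk1 hk2 a
    have e : |((q * (d.factorial * l.natAbs) : ℕ) : ℝ) * α - a| =
        |(q : ℝ) * (-α * ((d.factorial : ℝ) * (l : ℝ))) - a| := by
      push_cast
      rw [habs, abs_of_neg (by exact_mod_cast h1 : (l : ℝ) < 0)]
      congr 1
      ring
    rw [e] at h2
    linarith
  · have h2 := hG _ hk1 hk2 (-a)
    have e : |((q * (d.factorial * l.natAbs) : ℕ) : ℝ) * α - ((-a : ℤ) : ℝ)| =
        |(q : ℝ) * (-α * ((d.factorial : ℝ) * (l : ℝ))) - a| := by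
      push_cast
      rw [habs, abs_of_pos (by exact_mod_cast h1 : (0 : ℝ) < l), ← abs_neg]
      congr 1
      ring
    rw [e] at h2
    linarith

end Pool.Agent.W5h88.BP
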