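import Mathlib
import Pool.Agent.W5h88.BP.Wey

/-! The discrepancy of the mantissas at polynomial times. -/

set_option autoImplicit false

namespace Pool.Agent.W5h88.BP

open Finset Polynomial Pool.Agent.TH926.OSG
open Pool.Agent.Helper602.MK (ee)
open Pool.Agent.Helper602.MK.N_J5b (ee_add ee_zero ee_conj norm_ee ee_int ee_nat_mul ee_add_int)

/-- admissible times -/
structure Times {r : ℕ} (P : Fin r → ℤ[X]) : Prop where
  nonneg : ∀ i, ∀ j : ℕ, 0 ≤ (P i).eval (j : ℤ)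
  mono : ∀ i, Monotone fun j : ℕ => (P i).eval (j : ℤ)
  indep : ∀ h : Fin r → ℤ, (∑ i, C (h i) * P i).natDegree = 0 → h = 0

/-- the times -/
def tm {r : ℕ} (P : Fin r → ℤ[X]) (i : Fin r) (j : ℕ) : ℕ := ((P i).eval (j : ℤ)).toNat

theorem Gd.mono {α X Y X' Y' : ℝ} (h : Gd α X Y) (hX : X' ≤ X) (hY : Y' ≤ Y) : Gd α X' Y' :=
  fun k hk hkX m => lt_of_le_of_lt hY (h k hk (hkX.trans hX) m)

theorem est {r : ℕ} {P : Fin r → ℤ[X]} (hP : Times P) : ∃ C0 M : ℕ, 1 ≤ C0 ∧ ∀ (a b : ℤ),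
    Par a b → ∀ (x : ℤ) (K J : ℕ), Set.InjOn (fun i => (T a b)^[i] x) (Set.Iio K) →
    (∀ i, ∀ j < J, tm P i j < K) → 1 ≤ J → ∀ k : ℕ, 1 ≤ k →
    Gd (Real.log 2 / Real.log a) (C0 * (k : ℝ) ^ M) (C0 * (k : ℝ) ^ M / J) →
    ∀ A B : Fin r → ℝ, (∀ i, 0 ≤ A i) → (∀ i, A i ≤ B i) → (∀ i, B i ≤ 1) →
    |∑ j ∈ range J, ∏ i, chi (A i) (B i) (Real.logb a |(((T a b)^[tm P i j] x : ℤ) : ℝ)|) -
      J * ∏ i, (B i - A i)| ≤
      (9 * r + 1 + r * (4 * |(b : ℝ)| * (3 + 2 * Real.log K))) * (J / k) := by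
  classical
  set D : ℕ := univ.sup fun i => (P i).natDegree with hD
  obtain ⟨c, m, hc, hW⟩ := weyl D
  set L0 : ℕ := ∑ i, ∑ d ∈ range (D + 1), ((P i).coeff d).natAbs with hL0
  have hfac : 1 ≤ D.factorial := Nat.factorial_pos D
  refine ⟨c * (D.factorial * (L0 + 1)), 3 * (r + 2) * (m + D) + 3, ?_, ?_⟩
  · exact Nat.mul_pos hc (Nat.mul_pos hfac (Nat.succ_pos _))
  intro a b H x K J hinj hlt hJ k hk hG A B hA hAB hB
  have hJ0 : (0 : ℝ) < J := by exact_mod_cast hJ
  have hk1 : (1 : ℝ) ≤ k := by exact_mod_cast hk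
  have hk0 : (0 : ℝ) < k := by linarith
  have hcr : (1 : ℝ) ≤ c := by exact_mod_cast hc
  have hfr : (1 : ℝ) ≤ D.factorial := by exact_mod_cast hfac
  set Kf : ℕ := k ^ 3 with hKf
  have hKf1 : 1 ≤ Kf := Nat.one_le_pow _ _ hk
  set u : ℝ := (k : ℝ) ^ (3 * (r + 2)) with hu
  have hu1 : 1 ≤ u := one_le_pow₀ hk1
  have hu0 : 0 < u := by linarith
  set V : ℝ := 4 * |(b : ℝ)| * (3 + 2 * Real.log K) with hV
  have hV0 : 0 ≤ V := by
    have h1 : 0 ≤ Real.log K := Real.log_natCast_nonneg K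
    rw [hV]
    positivity
  set E : ℝ := J / u * (1 + r * (Kf : ℝ) * V) with hE
  have hE0 : 0 ≤ E := by positivity
  have hGd : Gd (Real.log 2 / Real.log a) (c * u ^ m * (D.factorial * ((Kf : ℝ) * L0)))
      (c * u ^ (m + D) / J) := by
    refine hG.mono ?_ ?_
    · push_cast
      have e1 : u ^ m * (Kf : ℝ) = (k : ℝ) ^ (3 * (r + 2) * m + 3) := by
        rw [hu, hKf]
        push_cast
        rw [← pow_mul, ← pow_add]
      have e2 : (k : ℝ) ^ (3 * (r + 2) * m + 3) ≤ (k : ℝ) ^ (3 * (r + 2) * (m + D) + 3) := by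
        apply pow_le_pow_right₀ hk1
        have : 3 * (r + 2) * m ≤ 3 * (r + 2) * (m + D) := Nat.mul_le_mul_left _ (Nat.le_add_right _ _)
        omega
      calc (c : ℝ) * u ^ m * (D.factorial * ((Kf : ℝ) * L0)) =
            c * (D.factorial * L0) * (u ^ m * (Kf : ℝ)) := by ring
        _ = c * (D.factorial * L0) * (k : ℝ) ^ (3 * (r + 2) * m + 3) := by rw [e1]
        _ ≤ c * (D.factorial * (L0 + 1)) * (k : ℝ) ^ (3 * (r + 2) * (m + D) + 3) := by
          apply mul_le_mul _ e2 (by positivity) (by positivity)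
          apply mul_le_mul_of_nonneg_left _ (by positivity)
          apply mul_le_mul_of_nonneg_left _ (by positivity)
          linarith
    · push_cast
      apply div_le_div_of_nonneg_right _ hJ0.le
      have e1 : u ^ (m + D) = (k : ℝ) ^ (3 * (r + 2) * (m + D)) := by
        rw [hu, ← pow_mul]
      rw [e1]
      apply mul_le_mul _ (pow_le_pow_right₀ hk1 (by omega)) (by positivity) (by positivity)
      have h1 : (1 : ℝ) ≤ D.factorial * (L0 + 1) := by
        have : (0 : ℝ) ≤ L0 := Nat.cast_nonneg _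
        nlinarith
      calc (c : ℝ) = c * 1 := (mul_one _).symm
        _ ≤ _ := mul_le_mul_of_nonneg_left h1 (by positivity)
  have hexp : ∀ h : Fin r → ℤ, h ≠ 0 → (∀ i, |h i| < Kf) →
      ‖∑ n ∈ range J, ee (∑ i, h i * Real.logb a |(((T a b)^[tm P i n] x : ℤ) : ℝ)|)‖ ≤ E := by
    intro h hne hlth
    set Q : ℤ[X] := ∑ i, C (h i) * P i with hQ
    have hd1 : 1 ≤ Q.natDegree := by
      by_contra h1
      have h0 : Q.natDegree = 0 := by omega
      exact hne (hP.indep h h0)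
    have hdD : Q.natDegree ≤ D := by
      apply natDegree_sum_le_of_forall_le
      intro i _
      refine (natDegree_C_mul_le _ _).trans ?_
      exact le_sup (f := fun i => (P i).natDegree) (mem_univ i)
    have hlead : |(Q.leadingCoeff : ℝ)| ≤ (Kf : ℝ) * L0 := by
      have e1 : Q.leadingCoeff = ∑ i, h i * (P i).coeff Q.natDegree := by
        show Q.coeff Q.natDegree = _
        conv_lhs => rw [hQ]
        rw [finsetSum_coeff]
        refine sum_congr rfl fun i _ => ?_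
        rw [coeff_C_mul]
      rw [e1]
      push_cast
      refine (abs_sum_le_sum_abs _ _).trans ?_
      rw [hL0]
      push_cast
      rw [mul_sum]
      refine sum_le_sum fun i _ => ?_
      rw [abs_mul]
      apply mul_le_mul _ _ (abs_nonneg _) (by positivity)
      · have := (hlth i).le
        exact_mod_cast this
      · have h2 : (((P i).coeff Q.natDegree).natAbs : ℝ) ≤
            ∑ d ∈ range (D + 1), (((P i).coeff d).natAbs : ℝ) :=
          single_le_sum (f := fun d => (((P i).coeff d).natAbs : ℝ))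
            (fun d _ => Nat.cast_nonneg _) (mem_range.2 (by omega))
        have h3 : (((P i).coeff Q.natDegree).natAbs : ℝ) = |(((P i).coeff Q.natDegree : ℤ) : ℝ)| := by
          rw [← Int.cast_abs, Int.abs_eq_natAbs]
          rfl
        rw [h3] at h2
        exact h2
    have hM := hW Q ((Kf : ℝ) * L0) u (Real.log 2 / Real.log a) J hd1 hdD hlead hJ hu1 hGd
    have hev : ∀ n : ℕ, ((Q.eval (n : ℤ) : ℤ) : ℝ) = ∑ i, (h i : ℝ) * (tm P i n : ℝ) := by
      intro n
      rw [hQ, eval_finsetSum]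
      push_cast
      refine sum_congr rfl fun i _ => ?_
      rw [eval_mul, eval_C]
      push_cast
      congr 1
      have h4 : ((tm P i n : ℕ) : ℤ) = (P i).eval (n : ℤ) := Int.toNat_of_nonneg (hP.nonneg i n)
      exact_mod_cast h4.symm
    have h5 := main_sum H x K hinj (fun i => tm P i)
      (fun i j1 j2 h => Int.toNat_le_toNat (hP.mono i h)) J hlt h (M := J / u) (by
        intro N hN
        have := hM N hN
        simpa only [hev] using this)
    refine h5.trans ?_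
    rw [hE]
    apply mul_le_mul_of_nonneg_left _ (by positivity)
    have h6 : ∑ i, |(h i : ℝ)| ≤ r * (Kf : ℝ) := by
      calc ∑ i, |(h i : ℝ)| ≤ ∑ _i : Fin r, (Kf : ℝ) := by
            refine sum_le_sum fun i _ => ?_
            have := (hlth i).le
            exact_mod_cast this
        _ = _ := by rw [sum_const, card_univ, Fintype.card_fin, nsmul_eq_mul]
    have h7 := mul_le_mul_of_nonneg_right h6 hV0
    linarith
  have hdisc := disc hKf1 (fun i n => Real.logb a |(((T a b)^[tm P i n] x : ℤ) : ℝ)|) hE0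
    (show (0 : ℝ) < 1 / k by positivity) hexp A B hA hAB hB
  refine hdisc.trans ?_
  have hKr : (Kf : ℝ) = (k : ℝ) ^ 3 := by rw [hKf]; push_cast; rfl
  have g1 : 1 / (4 * (1 / (k : ℝ)) ^ 2 * Kf) + (4 * (1 / (k : ℝ)) + 4 / Kf) ≤ 9 / k := by
    rw [hKr]
    have e1 : 1 / (4 * (1 / (k : ℝ)) ^ 2 * (k : ℝ) ^ 3) = (1 / 4) / k := by field_simp
    have e2 : 4 / (k : ℝ) ^ 3 ≤ 4 / k := by
      apply div_le_div_of_nonneg_left (by norm_num) hk0
      exact le_self_pow₀ hk1 (by norm_num)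
    rw [e1]
    have e3 : (1 / 4) / (k : ℝ) + (4 * (1 / (k : ℝ)) + 4 / k) = (33 / 4) / k := by
      field_simp
      norm_num
    have e4 : (33 / 4) / (k : ℝ) ≤ 9 / k := by
      apply div_le_div_of_nonneg_right _ hk0.le
      norm_num
    linarith
  have g2 : (Kf : ℝ) ^ r * E ≤ (1 + r * V) * (J / k) := by
    have e1 : (Kf : ℝ) ^ r * (J / u) = J / (k : ℝ) ^ 6 := by
      rw [hKr, hu, ← pow_mul, show 3 * (r + 2) = 3 * r + 6 by ring, pow_add]
      field_simp
    rw [hE, ← mul_assoc, e1, hKr]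
    have e2 : (J : ℝ) / (k : ℝ) ^ 6 * (1 + r * (k : ℝ) ^ 3 * V) =
        J / (k : ℝ) ^ 6 + r * V * (J / (k : ℝ) ^ 3) := by
      field_simp
    rw [e2]
    have e3 : (J : ℝ) / (k : ℝ) ^ 6 ≤ J / k :=
      div_le_div_of_nonneg_left hJ0.le hk0 (le_self_pow₀ hk1 (by norm_num))
    have e4 : (J : ℝ) / (k : ℝ) ^ 3 ≤ J / k :=
      div_le_div_of_nonneg_left hJ0.le hk0 (le_self_pow₀ hk1 (by norm_num))
    have e5 := mul_le_mul_of_nonneg_left e4 (show 0 ≤ r * V by positivity)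
    linarith
  have g3 : (r : ℝ) * (1 / (4 * (1 / (k : ℝ)) ^ 2 * Kf) + (4 * (1 / (k : ℝ)) + 4 / Kf)) * J ≤
      9 * r * (J / k) := by
    have e1 := mul_le_mul_of_nonneg_left g1 (show (0 : ℝ) ≤ r * J by positivity)
    calc (r : ℝ) * (1 / (4 * (1 / (k : ℝ)) ^ 2 * Kf) + (4 * (1 / (k : ℝ)) + 4 / Kf)) * J =
          r * J * (1 / (4 * (1 / (k : ℝ)) ^ 2 * Kf) + (4 * (1 / (k : ℝ)) + 4 / Kf)) := by ring
      _ ≤ (r : ℝ) * J * (9 / k) := e1
      _ = _ := by ring
  linarith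

/-- the number of distinct terms which matters -/
theorem times_le {r : ℕ} {P : Fin r → ℤ[X]} (hP : Times P) : ∃ C : ℝ, 1 ≤ C ∧ ∀ J : ℕ, 1 ≤ J →
    Real.log ((univ.sup fun i => tm P i (J - 1)) + 1 : ℕ) ≤ C * (1 + Real.log J) := by
  classical
  set D : ℕ := univ.sup fun i => (P i).natDegree with hD
  set L0 : ℕ := ∑ i, ∑ d ∈ range (D + 1), ((P i).coeff d).natAbs with hL0
  refine ⟨(L0 : ℝ) + D + 1, by linarith [(Nat.cast_nonneg L0 : (0 : ℝ) ≤ L0),
    (Nat.cast_nonneg D : (0 : ℝ) ≤ D)], ?_⟩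
  intro J hJ
  have hJ1 : (1 : ℝ) ≤ J := by exact_mod_cast hJ
  have hlJ : 0 ≤ Real.log J := Real.log_nonneg hJ1
  have h1 : ∀ i, tm P i (J - 1) ≤ L0 * J ^ D := by
    intro i
    have h2 : ((tm P i (J - 1) : ℕ) : ℤ) = (P i).eval ((J - 1 : ℕ) : ℤ) :=
      Int.toNat_of_nonneg (hP.nonneg i _)
    have h3 : (P i).natDegree < D + 1 := Nat.lt_succ_of_le (le_sup (f := fun i => (P i).natDegree)
      (mem_univ i))
    have h4 : (P i).eval ((J - 1 : ℕ) : ℤ) ≤ ((L0 * J ^ D : ℕ) : ℤ) := by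
      rw [eval_eq_sum_range' h3]
      calc ∑ d ∈ range (D + 1), (P i).coeff d * ((J - 1 : ℕ) : ℤ) ^ d
          ≤ ∑ d ∈ range (D + 1), ((((P i).coeff d).natAbs : ℕ) : ℤ) * (J : ℤ) ^ D := by
            refine sum_le_sum fun d hd => ?_
            rw [mem_range] at hd
            have e1 : (P i).coeff d ≤ ((((P i).coeff d).natAbs : ℕ) : ℤ) := Int.le_natAbs
            have e2 : ((J - 1 : ℕ) : ℤ) ^ d ≤ (J : ℤ) ^ D := by
              calc ((J - 1 : ℕ) : ℤ) ^ d ≤ (J : ℤ) ^ d :=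
                    pow_le_pow_left₀ (by positivity) (by exact_mod_cast Nat.sub_le J 1) d
                _ ≤ _ := pow_le_pow_right₀ (by exact_mod_cast hJ) (by omega)
            exact mul_le_mul e1 e2 (by positivity) (by positivity)
        _ = (∑ d ∈ range (D + 1), ((((P i).coeff d).natAbs : ℕ) : ℤ)) * (J : ℤ) ^ D := by
            rw [sum_mul]
        _ ≤ _ := by
            push_cast
            apply mul_le_mul_of_nonneg_right _ (by positivity)
            rw [hL0]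
            push_cast
            exact single_le_sum (f := fun i => ∑ d ∈ range (D + 1), |(P i).coeff d|)
              (fun i _ => sum_nonneg fun d _ => abs_nonneg _) (mem_univ i)
    have : ((tm P i (J - 1) : ℕ) : ℤ) ≤ ((L0 * J ^ D : ℕ) : ℤ) := h2.le.trans h4
    exact_mod_cast this
  have h5 : (univ.sup fun i => tm P i (J - 1)) + 1 ≤ (L0 + 1) * J ^ D := by
    have h6 : (univ.sup fun i => tm P i (J - 1)) ≤ L0 * J ^ D := Finset.sup_le fun i _ => h1 i
    have h7 : 1 ≤ J ^ D := Nat.one_le_pow _ _ hJ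
    nlinarith
  have h6 : (((univ.sup fun i => tm P i (J - 1)) + 1 : ℕ) : ℝ) ≤ ((L0 : ℝ) + 1) * (J : ℝ) ^ D := by
    exact_mod_cast h5
  have hpos : (0 : ℝ) < (((univ.sup fun i => tm P i (J - 1)) + 1 : ℕ) : ℝ) := by positivity
  refine (Real.log_le_log hpos h6).trans ?_
  rw [Real.log_mul (by positivity) (by positivity), Real.log_pow]
  have h7 : Real.log ((L0 : ℝ) + 1) ≤ L0 := by
    have := Real.log_le_sub_one_of_pos (show (0 : ℝ) < (L0 : ℝ) + 1 by positivity)
    linarith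
  have h8 : (0 : ℝ) ≤ L0 := Nat.cast_nonneg _
  have h9 : (0 : ℝ) ≤ D := Nat.cast_nonneg _
  nlinarith [mul_nonneg h8 hlJ, mul_nonneg h9 hlJ]

end Pool.Agent.W5h88.BP
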