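import Mathlib
import Pool.Agent.W5h88.BP.Est
import Pool.Agent.W5h23.G.Approx
import Pool.Agent.H319R2.Measure

/-! The choice of the parameter. -/

set_option autoImplicit false

namespace Pool.Agent.W5h88.BP

open Finset

theorem floor_half {y : ℝ} (hy : 1 ≤ y) : 1 ≤ ⌊y⌋₊ ∧ y / 2 ≤ (⌊y⌋₊ : ℝ) := by
  have h1 : 1 ≤ ⌊y⌋₊ := Nat.le_floor (by simpa using hy)
  have h2 := Nat.lt_floor_add_one y
  have h3 : (1 : ℝ) ≤ (⌊y⌋₊ : ℝ) := by exact_mod_cast h1
  exact ⟨h1, by linarith⟩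

theorem gd_three (C0 M : ℕ) (hC0 : 1 ≤ C0) : ∃ c : ℝ, 0 < c ∧ c ≤ 1 ∧ ∀ J : ℕ, 1 ≤ J →
    c * (J : ℝ) ^ c ≤ 1 ∨ ∃ k : ℕ, 1 ≤ k ∧ c * (J : ℝ) ^ c ≤ k ∧
      Gd (Real.log 2 / Real.log 3) (C0 * (k : ℝ) ^ M) (C0 * (k : ℝ) ^ M / J) := by
  obtain ⟨c3, hc3, hm⟩ := Pool.Agent.H319R2.measure
  have hC0r : (1 : ℝ) ≤ C0 := by exact_mod_cast hC0
  set B0 : ℝ := min 1 c3 / (2 * 3 ^ 13 * (C0 : ℝ) ^ 14 * 2) with hB0
  have hmin : 0 < min 1 c3 := lt_min one_pos hc3
  have hB00 : 0 < B0 := by positivity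
  have hden : (1 : ℝ) ≤ 2 * 3 ^ 13 * (C0 : ℝ) ^ 14 * 2 := by
    have : (1 : ℝ) ≤ (C0 : ℝ) ^ 14 := one_le_pow₀ hC0r
    nlinarith
  have hB01 : B0 ≤ 1 := by
    rw [hB0, div_le_one (by positivity)]
    exact (min_le_left _ _).trans hden
  set M1 : ℕ := 14 * M + 1 with hM1
  have hM1r : (1 : ℝ) ≤ M1 := by rw [hM1]; push_cast; linarith [(Nat.cast_nonneg M : (0 : ℝ) ≤ M)]
  set e : ℝ := 1 / (M1 : ℝ) with he
  have he0 : 0 < e := by positivity
  have he1 : e ≤ 1 := by rw [he, div_le_one (by linarith)]; exact hM1r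
  refine ⟨min e (B0 / 2), lt_min he0 (by positivity), (min_le_left _ _).trans he1, ?_⟩
  set c := min e (B0 / 2) with hc
  have hce : c ≤ e := min_le_left _ _
  have hcB : c ≤ B0 / 2 := min_le_right _ _
  have hc0 : 0 < c := lt_min he0 (by positivity)
  intro J hJ
  have hJ1 : (1 : ℝ) ≤ J := by exact_mod_cast hJ
  have hJ0 : (0 : ℝ) < J := by linarith
  set y : ℝ := (B0 * J) ^ e with hy
  have hcy : c * (J : ℝ) ^ c ≤ y / 2 := by
    have h1 : B0 ≤ B0 ^ e := by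
      have := Real.rpow_le_rpow_of_exponent_ge hB00 hB01 he1
      rwa [Real.rpow_one] at this
    have h2 : (J : ℝ) ^ c ≤ (J : ℝ) ^ e := Real.rpow_le_rpow_of_exponent_le hJ1 hce
    have h3 : y = B0 ^ e * (J : ℝ) ^ e := Real.mul_rpow hB00.le hJ0.le
    rw [h3]
    have h4 : 0 < (J : ℝ) ^ e := by positivity
    calc c * (J : ℝ) ^ c ≤ (B0 / 2) * (J : ℝ) ^ e := mul_le_mul hcB h2 (by positivity) (by positivity)
      _ ≤ _ := by nlinarith
  rcases lt_or_ge y 1 with h1 | h1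
  · left; linarith
  · right
    obtain ⟨hk1, hk2⟩ := floor_half h1
    refine ⟨⌊y⌋₊, hk1, hcy.trans hk2, ?_⟩
    set k := ⌊y⌋₊ with hk
    have hk1r : (1 : ℝ) ≤ k := by exact_mod_cast hk1
    have hky : (k : ℝ) ≤ y := Nat.floor_le (by linarith)
    have hkM : (k : ℝ) ^ M1 ≤ B0 * J := by
      calc (k : ℝ) ^ M1 ≤ y ^ M1 := pow_le_pow_left₀ (by positivity) hky _
        _ = B0 * J := by
          rw [hy, ← Real.rpow_natCast, ← Real.rpow_mul (by positivity), he]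
          rw [one_div, inv_mul_cancel₀ (by positivity), Real.rpow_one]
    have hk14 : ((k : ℝ) ^ M) ^ 14 ≤ B0 * J := by
      refine le_trans ?_ hkM
      rw [← pow_mul]
      exact pow_le_pow_right₀ hk1r (by omega)
    have hkMM : (k : ℝ) ^ M ≤ B0 * J := by
      refine le_trans ?_ hk14
      exact le_self_pow₀ (one_le_pow₀ hk1r) (by norm_num)
    intro k' hk' hk'X m
    have hk'1 : (1 : ℝ) ≤ k' := by exact_mod_cast hk'
    by_contra hcon
    push Not at hcon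
    set α : ℝ := Real.log 2 / Real.log 3 with hα
    have hl3 : 0 < Real.log 3 := Real.log_pos (by norm_num)
    have hl2 : 0 < Real.log 2 := Real.log_pos (by norm_num)
    have hα1 : α ≤ 1 := by
      rw [hα, div_le_one hl3]
      exact Real.log_le_log (by norm_num) (by norm_num)
    have hα0 : 0 < α := by positivity
    have hC014 : (C0 : ℝ) ≤ (C0 : ℝ) ^ 14 := le_self_pow₀ hC0r (by norm_num)
    have hB0e : B0 * (2 * 3 ^ 13 * (C0 : ℝ) ^ 14 * 2) = min 1 c3 := by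
      rw [hB0]; field_simp
    have hY1 : (C0 : ℝ) * (k : ℝ) ^ M / J ≤ 1 := by
      rw [div_le_one hJ0]
      have h2 : (C0 : ℝ) * (k : ℝ) ^ M ≤ C0 * (B0 * J) := mul_le_mul_of_nonneg_left hkMM (by positivity)
      have h3 : (C0 : ℝ) * B0 ≤ 1 := by
        have : (C0 : ℝ) ≤ 2 * 3 ^ 13 * (C0 : ℝ) ^ 14 * 2 := by nlinarith
        calc (C0 : ℝ) * B0 ≤ (2 * 3 ^ 13 * (C0 : ℝ) ^ 14 * 2) * B0 :=
              mul_le_mul_of_nonneg_right this hB00.le
          _ = min 1 c3 := by rw [mul_comm]; exact hB0e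
          _ ≤ 1 := min_le_left _ _
      nlinarith
    have hm2 : |(m : ℝ)| ≤ 2 * k' := by
      have e1 : (m : ℝ) = k' * α - (k' * α - m) := by ring
      have h2 : |(m : ℝ)| ≤ |(k' : ℝ) * α| + |(k' : ℝ) * α - m| := by
        calc |(m : ℝ)| = |(k' : ℝ) * α - (k' * α - m)| := by rw [← e1]
          _ ≤ _ := abs_sub _ _
      have h3 : |(k' : ℝ) * α| ≤ k' := by
        rw [abs_of_nonneg (by positivity)]
        nlinarith
      have h4 := hcon.trans hY1
      linarith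
    have hmq := hm k' (-m) (Or.inl (by omega))
    have e2 : ((k' : ℤ) : ℝ) * Real.log 2 + ((-m : ℤ) : ℝ) * Real.log 3 =
        Real.log 3 * ((k' : ℝ) * α - m) := by
      rw [hα]
      push_cast
      field_simp
      ring
    rw [e2, abs_mul, abs_of_pos hl3] at hmq
    have h5 : ((|(k' : ℤ)| + |-m| : ℤ) : ℝ) ≤ 3 * (C0 * (k : ℝ) ^ M) := by
      push_cast
      rw [abs_neg, abs_of_nonneg (by positivity : (0 : ℝ) ≤ (k' : ℝ))]
      linarith
    have h50 : (0 : ℝ) ≤ ((|(k' : ℤ)| + |-m| : ℤ) : ℝ) := by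
      have : (0 : ℤ) ≤ |(k' : ℤ)| + |-m| := by positivity
      exact_mod_cast this
    have hl3b : Real.log 3 < 2 := by
      have h1 := Real.log_two_lt_d9
      have h2 : Real.log 3 ≤ Real.log 4 := Real.log_le_log (by norm_num) (by norm_num)
      have h3 : Real.log 4 = 2 * Real.log 2 := by
        rw [show (4 : ℝ) = 2 ^ 2 by norm_num, Real.log_pow]; push_cast; ring
      linarith
    have h6 : c3 ≤ (3 * (C0 * (k : ℝ) ^ M)) ^ 13 * (2 * (C0 * (k : ℝ) ^ M / J)) := by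
      refine hmq.trans ?_
      apply mul_le_mul (pow_le_pow_left₀ h50 h5 13) _ (by positivity) (by positivity)
      exact mul_le_mul hl3b.le hcon (abs_nonneg _) (by norm_num)
    have h7 : (3 * (C0 * (k : ℝ) ^ M)) ^ 13 * (2 * (C0 * (k : ℝ) ^ M / J)) =
        (2 * 3 ^ 13 * (C0 : ℝ) ^ 14) * (((k : ℝ) ^ M) ^ 14 / J) := by
      field_simp
    have h8 : ((k : ℝ) ^ M) ^ 14 / J ≤ B0 := by
      rw [div_le_iff₀ hJ0]
      exact hk14
    have h9 : (2 * 3 ^ 13 * (C0 : ℝ) ^ 14) * (((k : ℝ) ^ M) ^ 14 / J) ≤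
        (2 * 3 ^ 13 * (C0 : ℝ) ^ 14) * B0 := mul_le_mul_of_nonneg_left h8 (by positivity)
    have h10 : min 1 c3 ≤ c3 := min_le_right _ _
    rw [h7] at h6
    linarith

/-- lower bound for all fractional parts -/
theorem lower_prime {a : ℕ} (ha : a.Prime) (ha2 : a ≠ 2) : ∃ B δ : ℝ, 0 < B ∧ 0 < δ ∧ δ ≤ 1 ∧
    ∀ k : ℕ, 1 ≤ k → ∀ m : ℤ, δ * Real.exp (-(B * (1 + Real.log k) ^ 2)) ≤
      |(k : ℝ) * (Real.log 2 / Real.log a) - m| := by
  obtain ⟨B, hB, h⟩ := Pool.Agent.W5h23.G.lfl_prime ha ha2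
  have ha3 : 3 ≤ a := by
    have := ha.two_le
    omega
  have har : (3 : ℝ) ≤ a := by exact_mod_cast ha3
  have hl2 := Real.log_two_gt_d9
  have hla2 : Real.log 2 < Real.log a := Real.log_lt_log (by norm_num) (by linarith)
  have hla1 : 1 < Real.log a := by
    have h1 := Real.log_le_log (by norm_num : (0 : ℝ) < 3) har
    have h2 : (1 : ℝ) < Real.log 3 := by
      rw [Real.lt_log_iff_exp_lt (by norm_num)]
      have := Real.exp_one_lt_d9
      linarith
    linarith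
  have hla : 0 < Real.log a := by linarith
  refine ⟨B, 1 / (2 * Real.log a), hB, by positivity, ?_, ?_⟩
  · rw [div_le_one (by positivity)]
    linarith
  intro k hk m
  have hk1 : (1 : ℝ) ≤ k := by exact_mod_cast hk
  set α : ℝ := Real.log 2 / Real.log a with hα
  have hα1 : α < 1 := by rw [hα, div_lt_one hla]; exact hla2
  have hα0 : 0 < α := by rw [hα]; positivity
  set E : ℝ := Real.exp (-(B * (1 + Real.log k) ^ 2)) with hE
  have hE1 : E ≤ 1 := by
    rw [hE, Real.exp_le_one_iff]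
    have : 0 ≤ B * (1 + Real.log k) ^ 2 := by positivity
    linarith
  have hE0 : 0 < E := Real.exp_pos _
  rw [div_mul_eq_mul_div, one_mul, div_le_iff₀ (by positivity)]
  have hlα : α * Real.log a = Real.log 2 := by rw [hα]; field_simp
  rcases le_or_gt m 0 with h1 | h1
  · have h2 : (m : ℝ) ≤ 0 := by exact_mod_cast h1
    have h3 : α ≤ |(k : ℝ) * α - m| := by
      rw [le_abs]
      left
      nlinarith
    calc E ≤ 1 := hE1
      _ ≤ α * (2 * Real.log a) := by nlinarith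
      _ ≤ _ := mul_le_mul_of_nonneg_right h3 (by positivity)
  · rcases lt_or_ge (k : ℤ) m with h2 | h2
    · have h3 : (k : ℝ) + 1 ≤ m := by exact_mod_cast h2
      have h4 : 1 ≤ |(k : ℝ) * α - m| := by
        rw [le_abs]
        right
        nlinarith
      calc E ≤ 1 := hE1
        _ ≤ 1 * (2 * Real.log a) := by linarith
        _ ≤ _ := mul_le_mul_of_nonneg_right h4 (by positivity)
    · obtain ⟨n, rfl⟩ : ∃ n : ℕ, m = n := ⟨m.toNat, by omega⟩
      have h3 := h k n hk (by omega) (by omega)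
      have e1 : (k : ℝ) * Real.log 2 - n * Real.log a = ((k : ℝ) * α - ((n : ℤ) : ℝ)) * Real.log a := by
        rw [hα]; push_cast; field_simp
      rw [e1, abs_mul, abs_of_pos hla] at h3
      refine h3.trans ?_
      apply mul_le_mul_of_nonneg_left _ (abs_nonneg _)
      linarith

theorem aux1 (z : ℝ) : z ≤ z ^ 2 + 1 := by nlinarith [sq_nonneg (z - 1 / 2)]

theorem aux2 (x y : ℝ) : (x + y) ^ 2 ≤ 2 * x ^ 2 + 2 * y ^ 2 := by nlinarith [sq_nonneg (x - y)]

theorem gd_prime {a : ℕ} (ha : a.Prime) (ha2 : a ≠ 2) (C0 M : ℕ) (hC0 : 1 ≤ C0) :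
    ∃ c : ℝ, 0 < c ∧ ∀ J : ℕ, 1 ≤ J →
      c * Real.exp (c * √(Real.log J)) ≤ 1 ∨ ∃ k : ℕ, 1 ≤ k ∧
        c * Real.exp (c * √(Real.log J)) ≤ k ∧
        Gd (Real.log 2 / Real.log a) (C0 * (k : ℝ) ^ M) (C0 * (k : ℝ) ^ M / J) := by
  obtain ⟨B, δ, hB, hδ, hδ1, hlow⟩ := lower_prime ha ha2
  have hC0r : (1 : ℝ) ≤ C0 := by exact_mod_cast hC0
  have hM0 : (0 : ℝ) ≤ M := Nat.cast_nonneg _
  set C5 : ℝ := C0 + 1 + 2 * B * (C0 : ℝ) ^ 2 + 1 / δ with hC5
  set C6 : ℝ := (1 + 2 * B) * (M : ℝ) ^ 2 + 1 with hC6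
  have hC50 : 0 < C5 := by positivity
  have hC60 : 0 < C6 := by positivity
  set κ : ℝ := √(1 / (2 * C6)) with hκ
  have hκ0 : 0 < κ := Real.sqrt_pos.2 (by positivity)
  have hκ2 : κ ^ 2 = 1 / (2 * C6) := Real.sq_sqrt (by positivity)
  set c : ℝ := min (min (1 / 2) κ) (Real.exp (-√(2 * C5))) with hc
  have hc0 : 0 < c := lt_min (lt_min (by norm_num) hκ0) (Real.exp_pos _)
  have hc1 : c ≤ 1 / 2 := (min_le_left _ _).trans (min_le_left _ _)
  have hcκ : c ≤ κ := (min_le_left _ _).trans (min_le_right _ _)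
  have hce : c ≤ Real.exp (-√(2 * C5)) := min_le_right _ _
  refine ⟨c, hc0, ?_⟩
  intro J hJ
  have hJ1 : (1 : ℝ) ≤ J := by exact_mod_cast hJ
  have hJ0 : (0 : ℝ) < J := by linarith
  have hlJ : 0 ≤ Real.log J := Real.log_nonneg hJ1
  set s : ℝ := √(Real.log J) with hs
  have hs0 : 0 ≤ s := Real.sqrt_nonneg _
  have hs2 : s ^ 2 = Real.log J := Real.sq_sqrt hlJ
  rcases le_or_gt (Real.log J) (2 * C5) with h1 | h1
  · left
    have h2 : s ≤ √(2 * C5) := Real.sqrt_le_sqrt h1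
    have h3 : Real.exp (c * s) ≤ Real.exp (√(2 * C5)) := by
      apply Real.exp_le_exp.2
      nlinarith
    calc c * Real.exp (c * s) ≤ Real.exp (-√(2 * C5)) * Real.exp (√(2 * C5)) :=
          mul_le_mul hce h3 (Real.exp_pos _).le (Real.exp_pos _).le
      _ = 1 := by rw [← Real.exp_add]; simp
  · right
    have hy : 1 ≤ Real.exp (κ * s) := Real.one_le_exp (by positivity)
    obtain ⟨hk1, hk2⟩ := floor_half hy
    refine ⟨⌊Real.exp (κ * s)⌋₊, hk1, ?_, ?_⟩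
    · refine le_trans ?_ hk2
      have h3 : Real.exp (c * s) ≤ Real.exp (κ * s) := by
        apply Real.exp_le_exp.2
        exact mul_le_mul_of_nonneg_right hcκ hs0
      have h4 := Real.exp_pos (c * s)
      nlinarith
    set k := ⌊Real.exp (κ * s)⌋₊ with hk
    have hk1r : (1 : ℝ) ≤ k := by exact_mod_cast hk1
    have hky : (k : ℝ) ≤ Real.exp (κ * s) := Nat.floor_le (by linarith)
    set t : ℝ := Real.log k with ht
    have ht0 : 0 ≤ t := Real.log_nonneg hk1r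
    have htk : t ≤ κ * s := by
      rw [ht, Real.log_le_iff_le_exp (by linarith)]
      exact hky
    have htk2 : C6 * t ^ 2 ≤ Real.log J / 2 := by
      have h3 : t ^ 2 ≤ (κ * s) ^ 2 := pow_le_pow_left₀ ht0 htk 2
      rw [mul_pow, hκ2, hs2] at h3
      have h4 := mul_le_mul_of_nonneg_left h3 hC60.le
      have h5 : C6 * (1 / (2 * C6) * Real.log J) = Real.log J / 2 := by field_simp
      linarith
    have hkexp : (k : ℝ) = Real.exp t := (Real.exp_log (by linarith)).symm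
    intro k' hk' hk'X m
    have hk'1 : (1 : ℝ) ≤ k' := by exact_mod_cast hk'
    refine lt_of_lt_of_le ?_ (hlow k' hk' m)
    have hlk0 : 0 ≤ Real.log k' := Real.log_nonneg hk'1
    have hlC0 : Real.log C0 ≤ C0 - 1 := Real.log_le_sub_one_of_pos (by linarith)
    have hlk : 1 + Real.log k' ≤ C0 + M * t := by
      have h3 := Real.log_le_log (by linarith) hk'X
      rw [Real.log_mul (by positivity) (by positivity), Real.log_pow] at h3
      linarith
    have hsq : (1 + Real.log k') ^ 2 ≤ 2 * (C0 : ℝ) ^ 2 + 2 * ((M : ℝ) ^ 2 * t ^ 2) := by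
      have h3 : (1 + Real.log k') ^ 2 ≤ (C0 + M * t) ^ 2 :=
        pow_le_pow_left₀ (by positivity) hlk 2
      have h4 := aux2 (C0 : ℝ) (M * t)
      rw [mul_pow (M : ℝ) t 2] at h4
      exact h3.trans h4
    have hMt : (M : ℝ) * t ≤ (M : ℝ) ^ 2 * t ^ 2 + 1 := by
      have h3 := aux1 ((M : ℝ) * t)
      rwa [mul_pow] at h3
    have hlδ : -Real.log δ ≤ 1 / δ := by
      rw [← Real.log_inv, one_div]
      have := Real.log_le_sub_one_of_pos (inv_pos.2 hδ)
      linarith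
    have hX0 : (0 : ℝ) < C0 * (k : ℝ) ^ M := by positivity
    have hlt : Real.log (C0 * (k : ℝ) ^ M / J) < Real.log (δ * Real.exp (-(B * (1 + Real.log k') ^ 2))) := by
      rw [Real.log_div hX0.ne' hJ0.ne', Real.log_mul (by positivity) (by positivity), Real.log_pow,
        Real.log_mul hδ.ne' (Real.exp_pos _).ne', Real.log_exp, ← ht]
      have h4 := mul_le_mul_of_nonneg_left hsq hB.le
      have h5 : C6 * t ^ 2 = (1 + 2 * B) * ((M : ℝ) ^ 2 * t ^ 2) + t ^ 2 := by rw [hC6]; ring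
      have h6 : 0 ≤ t ^ 2 := sq_nonneg _
      have h7 : (C5 : ℝ) = C0 + 1 + 2 * B * (C0 : ℝ) ^ 2 + 1 / δ := hC5
      clear_value C5 C6 κ c s t k
      clear hlow hsq hkexp hky hk2 hy hcκ hce hc1 hκ2 hC6 hC5
      linarith only [hlC0, hMt, h4, h5, h6, h7, hlδ, htk2, h1]
    exact (Real.log_lt_log_iff (by positivity) (by positivity)).1 hlt

end Pool.Agent.W5h88.BP
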