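import Mathlib
import Pool.Agent.W5h88.BP.Par

/-! Benford's law at polynomial times. -/

set_option autoImplicit false

namespace Pool.Agent.W5h88.BP

open Finset Polynomial Pool.Agent.TH926.OSG

theorem growth_exp {c : ℝ} (hc : 0 < c) : ∃ C : ℝ, 0 < C ∧ ∀ J : ℕ, 1 ≤ J →
    (1 + Real.log J) / (c * Real.exp (c * √(Real.log J))) ≤
      C * Real.exp (-(c / 2 * √(Real.log J))) := by
  refine ⟨(1 + 8 / c ^ 2) / c, by positivity, ?_⟩
  intro J hJ
  have hJ1 : (1 : ℝ) ≤ J := by exact_mod_cast hJ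
  have hlJ : 0 ≤ Real.log J := Real.log_nonneg hJ1
  set s : ℝ := √(Real.log J) with hs
  have hs0 : 0 ≤ s := Real.sqrt_nonneg _
  have hs2 : s ^ 2 = Real.log J := Real.sq_sqrt hlJ
  rw [← hs2, div_le_iff₀ (by positivity)]
  have h1 : (1 + 8 / c ^ 2) / c * Real.exp (-(c / 2 * s)) * (c * Real.exp (c * s)) =
      (1 + 8 / c ^ 2) * Real.exp (c / 2 * s) := by
    have : Real.exp (c * s) = Real.exp (c / 2 * s) * Real.exp (c / 2 * s) := by
      rw [← Real.exp_add]; congr 1; ring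
    rw [this, Real.exp_neg]
    field_simp
  rw [h1]
  have h2 := Real.quadratic_le_exp_of_nonneg (show 0 ≤ c / 2 * s by positivity)
  have h3 : 1 + c ^ 2 * s ^ 2 / 8 ≤ Real.exp (c / 2 * s) := by
    have : 0 ≤ c / 2 * s := by positivity
    nlinarith
  have h4 : 0 < 1 + 8 / c ^ 2 := by positivity
  have h5 := mul_le_mul_of_nonneg_left h3 h4.le
  have h6 : (1 + 8 / c ^ 2) * (1 + c ^ 2 * s ^ 2 / 8) = 1 + s ^ 2 + (8 / c ^ 2 + c ^ 2 * s ^ 2 / 8) := by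
    field_simp
    ring
  have h7 : 0 ≤ 8 / c ^ 2 + c ^ 2 * s ^ 2 / 8 := by positivity
  linarith

theorem growth_pow {c : ℝ} (hc : 0 < c) : ∃ C : ℝ, 0 < C ∧ ∀ J : ℕ, 1 ≤ J →
    (1 + Real.log J) / (c * (J : ℝ) ^ c) ≤ C * (J : ℝ) ^ (-(c / 2)) := by
  refine ⟨(1 + 2 / c) / c, by positivity, ?_⟩
  intro J hJ
  have hJ1 : (1 : ℝ) ≤ J := by exact_mod_cast hJ
  have hJ0 : (0 : ℝ) < J := by linarith
  rw [div_le_iff₀ (by positivity)]
  have h1 : (1 + 2 / c) / c * (J : ℝ) ^ (-(c / 2)) * (c * (J : ℝ) ^ c) =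
      (1 + 2 / c) * (J : ℝ) ^ (c / 2) := by
    have : (J : ℝ) ^ (c / 2) = (J : ℝ) ^ (-(c / 2)) * (J : ℝ) ^ c := by
      rw [← Real.rpow_add hJ0]; congr 1; ring
    rw [this]
    field_simp
  rw [h1]
  have h2 : Real.log J ≤ (J : ℝ) ^ (c / 2) / (c / 2) :=
    Real.log_le_rpow_div hJ0.le (by positivity)
  have h3 : (J : ℝ) ^ (c / 2) / (c / 2) = 2 / c * (J : ℝ) ^ (c / 2) := by field_simp
  have h4 : 1 ≤ (J : ℝ) ^ (c / 2) := Real.one_le_rpow hJ1 (by positivity)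
  rw [h3] at h2
  nlinarith

theorem comb {r : ℕ} {P : Fin r → ℤ[X]} (hP : Times P) : ∃ C0 M : ℕ, 1 ≤ C0 ∧ ∃ C8 : ℝ, 0 < C8 ∧
    ∀ (a b : ℤ), Par a b → ∀ (x : ℤ) (K J : ℕ),
    Set.InjOn (fun i => (T a b)^[i] x) (Set.Iio K) →
    (∀ i, ∀ j < J, tm P i j < K) → 1 ≤ J → ∀ g : ℝ, 0 < g → (g ≤ 1 ∨ ∃ k : ℕ, 1 ≤ k ∧ g ≤ k ∧
      Gd (Real.log 2 / Real.log a) (C0 * (k : ℝ) ^ M) (C0 * (k : ℝ) ^ M / J)) →
    ∀ A B : Fin r → ℝ, (∀ i, 0 ≤ A i) → (∀ i, A i ≤ B i) → (∀ i, B i ≤ 1) →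
    |∑ j ∈ range J, ∏ i, chi (A i) (B i) (Real.logb a |(((T a b)^[tm P i j] x : ℤ) : ℝ)|) -
      J * ∏ i, (B i - A i)| ≤ C8 * |(b : ℝ)| * J * ((1 + Real.log J) / g) := by
  classical
  obtain ⟨C0, M, hC0, hest⟩ := est hP
  obtain ⟨C7, hC7, htm⟩ := times_le hP
  refine ⟨C0, M, hC0, 9 * r + 1 + 4 * r * (3 + 2 * C7), by positivity, ?_⟩
  intro a b H x K J hinj hlt hJ g hg hch A B hA hAB hB
  have hb := H.b_ge
  have hJ1 : (1 : ℝ) ≤ J := by exact_mod_cast hJ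
  have hJ0 : (0 : ℝ) < J := by linarith
  have hlJ : 0 ≤ Real.log J := Real.log_nonneg hJ1
  set C8 : ℝ := 9 * r + 1 + 4 * r * (3 + 2 * C7) with hC8
  have hC81 : 1 ≤ C8 := by
    rw [hC8]
    have : (0 : ℝ) ≤ r := Nat.cast_nonneg _
    have h2 : 0 ≤ 4 * (r : ℝ) * (3 + 2 * C7) := by positivity
    linarith
  rcases hch with h1 | ⟨k, hk, hgk, hG⟩
  · have h2 : 0 ≤ ∑ j ∈ range J, ∏ i, chi (A i) (B i)
        (Real.logb a |(((T a b)^[tm P i j] x : ℤ) : ℝ)|) :=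
      sum_nonneg fun j _ => prod_nonneg fun i _ => chi_nonneg _ _ _
    have h3 : ∑ j ∈ range J, ∏ i, chi (A i) (B i)
        (Real.logb a |(((T a b)^[tm P i j] x : ℤ) : ℝ)|) ≤ J := by
      calc _ ≤ ∑ j ∈ range J, (1 : ℝ) :=
            sum_le_sum fun j _ => prod_le_one (fun i _ => chi_nonneg _ _ _) fun i _ => chi_le_one _ _ _
        _ = J := by simp
    have h4 : 0 ≤ ∏ i, (B i - A i) := prod_nonneg fun i _ => by linarith [hAB i]
    have h5 : ∏ i, (B i - A i) ≤ 1 := prod_le_one (fun i _ => by linarith [hAB i])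
      fun i _ => by linarith [hA i, hB i]
    have h6 : |∑ j ∈ range J, ∏ i, chi (A i) (B i)
        (Real.logb a |(((T a b)^[tm P i j] x : ℤ) : ℝ)|) - J * ∏ i, (B i - A i)| ≤ J := by
      rw [abs_le]
      constructor
      · nlinarith
      · nlinarith [mul_nonneg hJ0.le h4]
    refine h6.trans ?_
    have h7 : 1 ≤ (1 + Real.log J) / g := by
      rw [one_le_div hg]
      linarith
    have h8 : 1 ≤ C8 * |(b : ℝ)| := one_le_mul_of_one_le_of_one_le hC81 hb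
    have h9 : 1 ≤ C8 * |(b : ℝ)| * ((1 + Real.log J) / g) := one_le_mul_of_one_le_of_one_le h8 h7
    calc (J : ℝ) = J * 1 := (mul_one _).symm
      _ ≤ J * (C8 * |(b : ℝ)| * ((1 + Real.log J) / g)) := mul_le_mul_of_nonneg_left h9 hJ0.le
      _ = _ := by ring
  · have hk1 : (1 : ℝ) ≤ k := by exact_mod_cast hk
    have hk0 : (0 : ℝ) < k := by linarith
    set K' : ℕ := (univ.sup fun i => tm P i (J - 1)) + 1 with hK'
    have hinj' : Set.InjOn (fun i => (T a b)^[i] x) (Set.Iio K') := by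
      rcases Nat.eq_zero_or_pos r with h0 | h0
      · subst h0
        have : K' = 1 := by simp [hK']
        rw [this]
        intro i hi j hj _
        simp only [Set.mem_Iio] at hi hj
        omega
      · apply hinj.mono
        have h1 : K' ≤ K := by
          have : (univ.sup fun i => tm P i (J - 1)) < K := by
            rw [Finset.sup_lt_iff]
            · exact fun i _ => hlt i (J - 1) (by omega)
            · have := hlt ⟨0, h0⟩ (J - 1) (by omega)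
              exact lt_of_le_of_lt (Nat.zero_le _) this
          omega
        exact Set.Iio_subset_Iio h1
    have hlt' : ∀ i, ∀ j < J, tm P i j < K' := by
      intro i j hj
      have h1 : tm P i j ≤ tm P i (J - 1) := Int.toNat_le_toNat (hP.mono i (by omega))
      have h2 : tm P i (J - 1) ≤ univ.sup fun i => tm P i (J - 1) :=
        le_sup (f := fun i => tm P i (J - 1)) (mem_univ i)
      omega
    refine (hest a b H x K' J hinj' hlt' hJ k hk hG A B hA hAB hB).trans ?_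
    have h1 := htm J hJ
    rw [← hK'] at h1
    have h2 : 9 * (r : ℝ) + 1 + r * (4 * |(b : ℝ)| * (3 + 2 * Real.log K')) ≤
        C8 * |(b : ℝ)| * (1 + Real.log J) := by
      have hr : (0 : ℝ) ≤ r := Nat.cast_nonneg _
      have g1 : 1 ≤ |(b : ℝ)| * (1 + Real.log J) := one_le_mul_of_one_le_of_one_le hb (by linarith)
      have g2 : (3 + 2 * Real.log K') ≤ (3 + 2 * C7) * (1 + Real.log J) := by nlinarith
      have g3 := mul_le_mul_of_nonneg_left g2 (show 0 ≤ r * (4 * |(b : ℝ)|) by positivity)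
      have g4 := mul_le_mul_of_nonneg_left g1 (show (0 : ℝ) ≤ 9 * r + 1 by positivity)
      calc 9 * (r : ℝ) + 1 + r * (4 * |(b : ℝ)| * (3 + 2 * Real.log K')) =
            (9 * r + 1) * 1 + r * (4 * |(b : ℝ)|) * (3 + 2 * Real.log K') := by ring
        _ ≤ (9 * r + 1) * (|(b : ℝ)| * (1 + Real.log J)) +
            r * (4 * |(b : ℝ)|) * ((3 + 2 * C7) * (1 + Real.log J)) := add_le_add g4 g3
        _ = _ := by rw [hC8]; ring
    have h3 : (J : ℝ) / k ≤ J / g := div_le_div_of_nonneg_left hJ0.le hg hgk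
    calc _ ≤ (C8 * |(b : ℝ)| * (1 + Real.log J)) * (J / g) :=
          mul_le_mul h2 h3 (by positivity) (by positivity)
      _ = _ := by ring

theorem poly_prime {r : ℕ} {P : Fin r → ℤ[X]} (hP : Times P) {a : ℕ} (ha : a.Prime) (ha2 : a ≠ 2) :
    ∃ C c : ℝ, 0 < C ∧ 0 < c ∧ ∀ b : ℤ, b % 2 = 1 → ∀ (x : ℤ) (K J : ℕ),
    Set.InjOn (fun i => (T a b)^[i] x) (Set.Iio K) → (∀ i, ∀ j < J, tm P i j < K) →
    ∀ A B : Fin r → ℝ, (∀ i, 0 ≤ A i) → (∀ i, A i ≤ B i) → (∀ i, B i ≤ 1) →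
    |∑ j ∈ range J, ∏ i, chi (A i) (B i) (Real.logb a |(((T a b)^[tm P i j] x : ℤ) : ℝ)|) -
      J * ∏ i, (B i - A i)| ≤ C * |(b : ℝ)| * J * Real.exp (-(c * √(Real.log J))) := by
  obtain ⟨C0, M, hC0, C8, hC8, h⟩ := comb hP
  obtain ⟨c, hc, hgd⟩ := gd_prime ha ha2 C0 M hC0
  obtain ⟨C9, hC9, hgr⟩ := growth_exp hc
  refine ⟨C8 * C9, c / 2, by positivity, by positivity, ?_⟩
  intro b hb x K J hinj hlt A B hA hAB hB
  rcases Nat.eq_zero_or_pos J with h0 | h0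
  · subst h0
    simp
  have H : Par (a : ℤ) b := by
    have h2 := ha.eq_two_or_odd
    have h3 := ha.two_le
    exact ⟨by omega, by omega, hb⟩
  have h1 := h a b H x K J hinj hlt h0 (c * Real.exp (c * √(Real.log J))) (by positivity)
    (by simpa using hgd J h0) A B hA hAB hB
  have e : ((a : ℤ) : ℝ) = (a : ℝ) := by push_cast; rfl
  rw [e] at h1
  refine h1.trans ?_
  calc C8 * |(b : ℝ)| * J * ((1 + Real.log J) / (c * Real.exp (c * √(Real.log J)))) ≤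
        C8 * |(b : ℝ)| * J * (C9 * Real.exp (-(c / 2 * √(Real.log J)))) :=
        mul_le_mul_of_nonneg_left (hgr J h0) (by positivity)
    _ = _ := by ring

theorem poly_three {r : ℕ} {P : Fin r → ℤ[X]} (hP : Times P) :
    ∃ C c : ℝ, 0 < C ∧ 0 < c ∧ ∀ b : ℤ, b % 2 = 1 → ∀ (x : ℤ) (K J : ℕ),
    Set.InjOn (fun i => (T 3 b)^[i] x) (Set.Iio K) → (∀ i, ∀ j < J, tm P i j < K) →
    ∀ A B : Fin r → ℝ, (∀ i, 0 ≤ A i) → (∀ i, A i ≤ B i) → (∀ i, B i ≤ 1) →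
    |∑ j ∈ range J, ∏ i, chi (A i) (B i) (Real.logb 3 |(((T 3 b)^[tm P i j] x : ℤ) : ℝ)|) -
      J * ∏ i, (B i - A i)| ≤ C * |(b : ℝ)| * J * (J : ℝ) ^ (-c) := by
  obtain ⟨C0, M, hC0, C8, hC8, h⟩ := comb hP
  obtain ⟨c, hc, hc1, hgd⟩ := gd_three C0 M hC0
  obtain ⟨C9, hC9, hgr⟩ := growth_pow hc
  refine ⟨C8 * C9, c / 2, by positivity, by positivity, ?_⟩
  intro b hb x K J hinj hlt A B hA hAB hB
  rcases Nat.eq_zero_or_pos J with h0 | h0
  · subst h0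
    simp
  have H : Par 3 b := ⟨by norm_num, by norm_num, hb⟩
  have hJ0 : (0 : ℝ) < J := by exact_mod_cast h0
  have h1 := h 3 b H x K J hinj hlt h0 (c * (J : ℝ) ^ c) (by positivity)
    (by simpa using hgd J h0) A B hA hAB hB
  have e : ((3 : ℤ) : ℝ) = (3 : ℝ) := by norm_num
  rw [e] at h1
  refine h1.trans ?_
  calc C8 * |(b : ℝ)| * J * ((1 + Real.log J) / (c * (J : ℝ) ^ c)) ≤
        C8 * |(b : ℝ)| * J * (C9 * (J : ℝ) ^ (-(c / 2))) :=
        mul_le_mul_of_nonneg_left (hgr J h0) (by positivity)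
    _ = _ := by ring

end Pool.Agent.W5h88.BP
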