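import Mathlib
import Pool.Agent.W5h88.BP.Fin
import Pool.Agent.H425R3.JL.P1

/-! Benford's law at prime times. -/

set_option autoImplicit false

namespace Pool.Agent.W5h88.BP

open Finset Pool.Agent.TH926.OSG Pool.Agent.H425R3.JL
open Pool.Agent.Helper602.MK (ee)
open Pool.Agent.Helper602.MK.N_J5b (norm_ee)
open Pool.Agent.H383.AP (chr)

/-- the primes -/
noncomputable def pr (j : ℕ) : ℕ := Nat.nth Nat.Prime j

theorem pr_mono : StrictMono pr := Nat.nth_strictMono Nat.infinite_setOfPred_prime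

theorem pr_le {N j : ℕ} (h : j < Nat.primeCounting N) : pr j ≤ N := by
  have : pr j < N + 1 := Nat.nth_lt_of_lt_count h
  omega

theorem count_pr (j : ℕ) : Nat.primeCounting (pr j) = j + 1 := by
  show Nat.count Nat.Prime (pr j + 1) = j + 1
  exact Nat.count_nth_succ_of_infinite Nat.infinite_setOfPred_prime j

theorem prime_sum {M : Type*} [AddCommMonoid M] (f : ℕ → M) (N : ℕ) :
    ∑ j ∈ range (Nat.primeCounting N), f (pr j) = ∑ p ∈ PR N, f p := by
  have h : PR N = (range (Nat.primeCounting N)).image pr := by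
    ext p
    rw [mem_image, PR, mem_filter, mem_Icc]
    constructor
    · rintro ⟨⟨h1, h2⟩, h3⟩
      refine ⟨Nat.count Nat.Prime p, ?_, Nat.nth_count h3⟩
      rw [mem_range]
      exact Nat.count_strict_mono h3 (by omega)
    · rintro ⟨j, hj, rfl⟩
      rw [mem_range] at hj
      have h3 : (pr j).Prime := Nat.prime_nth_prime j
      exact ⟨⟨h3.one_lt.le, pr_le hj⟩, h3⟩
  rw [h, sum_image]
  intro i _ j _ hij
  exact pr_mono.injective hij

theorem ee_mk_chr (x θ : ℝ) (n : ℕ) (h : x = n * θ) : ee x = chr θ n := by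
  rw [← ee_chr, h]
  unfold Pool.Agent.Helper602.MK.ee Pool.Agent.H807R2.Dav.ee
  congr 1
  push_cast
  ring

/-- the multiples of the number `α` are not close to rational numbers with small denominator -/
theorem cond {α δ B' : ℝ} (hδ : 0 < δ) (hB' : 0 < B') (hlow : ∀ k : ℕ, 1 ≤ k → ∀ m : ℤ,
    δ * Real.exp (-(B' * (1 + Real.log k) ^ 2)) ≤ |(k : ℝ) * α - m|) (B W : ℕ) :
    ∃ Y0 : ℝ, 1 ≤ Y0 ∧ ∀ (t : ℕ) (y : ℝ), 1 ≤ t → y = Real.log t → Y0 ≤ y → ∀ h : ℤ, h ≠ 0 →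
    |(h : ℝ)| ≤ 8 * (9 * y) ^ W → ∀ q : ℕ, 1 ≤ q → (q : ℝ) < y ^ B → ∀ p : ℤ,
    y ^ B / (t * q) < |-α * h - p / q| := by
  set C1 : ℝ := 8 * 9 ^ W with hC1
  have hC11 : 1 ≤ C1 := by
    rw [hC1]
    have : (1 : ℝ) ≤ 9 ^ W := one_le_pow₀ (by norm_num)
    linarith
  set C5 : ℝ := 1 / δ + 2 * B' * (1 + Real.log C1) ^ 2 + B with hC5
  set C6 : ℝ := 16 * (B + 2 * B' * ((B + W : ℕ) : ℝ) ^ 2) with hC6
  have hC50 : 0 < C5 := by positivity
  have hC60 : 0 ≤ C6 := by positivity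
  refine ⟨(C5 + C6 + 1) ^ 2, one_le_pow₀ (by linarith), ?_⟩
  intro t y ht hy hyY h h0 hW q hq hqB p
  have hy1 : 1 ≤ y := le_trans (one_le_pow₀ (by linarith)) hyY
  have hy0 : 0 < y := by linarith
  have ht0 : (0 : ℝ) < t := by exact_mod_cast ht
  have hq1 : (1 : ℝ) ≤ q := by exact_mod_cast hq
  have hq0 : (0 : ℝ) < q := by linarith
  have habs : ((h.natAbs : ℕ) : ℝ) = |(h : ℝ)| := by
    rw [← Int.cast_abs, Int.abs_eq_natAbs]
    rfl
  have hk1 : 1 ≤ q * h.natAbs := Nat.mul_pos hq (Int.natAbs_pos.2 h0)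
  have hk1r : (1 : ℝ) ≤ ((q * h.natAbs : ℕ) : ℝ) := by exact_mod_cast hk1
  have hkle : ((q * h.natAbs : ℕ) : ℝ) ≤ C1 * y ^ (B + W) := by
    push_cast
    rw [habs]
    calc (q : ℝ) * |(h : ℝ)| ≤ y ^ B * (8 * (9 * y) ^ W) :=
          mul_le_mul hqB.le hW (abs_nonneg _) (by positivity)
      _ = _ := by rw [hC1, mul_pow, pow_add]; ring
  obtain ⟨k, hk⟩ : ∃ k : ℕ, k = q * h.natAbs := ⟨_, rfl⟩
  rw [← hk] at hk1 hk1r hkle
  have hlk0 : 0 ≤ Real.log k := Real.log_nonneg hk1r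
  obtain ⟨z, hz⟩ : ∃ z : ℝ, z = Real.log y := ⟨_, rfl⟩
  have hz0 : 0 ≤ z := by rw [hz]; exact Real.log_nonneg hy1
  have hlk : 1 + Real.log k ≤ (1 + Real.log C1) + ((B + W : ℕ) : ℝ) * z := by
    have h3 := Real.log_le_log (by linarith) hkle
    rw [Real.log_mul (by positivity) (by positivity), Real.log_pow, ← hz] at h3
    linarith
  have hsq2 : (1 + Real.log k) ^ 2 ≤ 2 * (1 + Real.log C1) ^ 2 +
      2 * (((B + W : ℕ) : ℝ) ^ 2 * z ^ 2) := by
    have h3 : (1 + Real.log k) ^ 2 ≤ ((1 + Real.log C1) + ((B + W : ℕ) : ℝ) * z) ^ 2 :=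
      pow_le_pow_left₀ (by positivity) hlk 2
    have h4 := aux2 (1 + Real.log C1) (((B + W : ℕ) : ℝ) * z)
    rw [mul_pow ((B + W : ℕ) : ℝ) z 2] at h4
    exact h3.trans h4
  have hz2 : z ^ 2 ≤ 16 * √y := by
    have h3 : z ≤ y ^ (1 / 4 : ℝ) / (1 / 4) := by
      rw [hz]
      exact Real.log_le_rpow_div hy0.le (by norm_num)
    have h4 : z ^ 2 ≤ (y ^ (1 / 4 : ℝ) / (1 / 4)) ^ 2 := pow_le_pow_left₀ hz0 h3 2
    have h5 : (y ^ (1 / 4 : ℝ) / (1 / 4)) ^ 2 = 16 * √y := by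
      rw [div_pow, ← Real.rpow_natCast, ← Real.rpow_mul hy0.le, Real.sqrt_eq_rpow]
      norm_num
      ring
    linarith
  have hsy : C5 + C6 + 1 ≤ √y := Real.le_sqrt_of_sq_le hyY
  have hsy2 : √y * √y = y := Real.mul_self_sqrt hy0.le
  have hlδ : -Real.log δ ≤ 1 / δ := by
    rw [← Real.log_inv, one_div]
    have := Real.log_le_sub_one_of_pos (inv_pos.2 hδ)
    linarith
  have g5 : C5 + C6 * √y < y := by
    have h3 : 1 ≤ √y := by linarith
    have h4 : C5 ≤ C5 * √y := le_mul_of_one_le_right hC50.le h3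
    have h5 : (C5 + C6) * √y < √y * √y := mul_lt_mul_of_pos_right (by linarith) (by linarith)
    linarith
  have hkey : Real.log (y ^ B / t) < Real.log (δ * Real.exp (-(B' * (1 + Real.log k) ^ 2))) := by
    rw [Real.log_div (by positivity) ht0.ne', Real.log_pow,
      Real.log_mul hδ.ne' (Real.exp_pos _).ne', Real.log_exp, ← hz, ← hy]
    have g1 := mul_le_mul_of_nonneg_left hsq2 hB'.le
    have g2 := mul_le_mul_of_nonneg_left (aux1 z) (show (0 : ℝ) ≤ B by positivity)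
    have g3 := mul_le_mul_of_nonneg_left hz2
      (show 0 ≤ (B : ℝ) + 2 * B' * ((B + W : ℕ) : ℝ) ^ 2 by positivity)
    have g4 : (B + 2 * B' * ((B + W : ℕ) : ℝ) ^ 2) * (16 * √y) = C6 * √y := by
      rw [hC6]; ring
    have g6 : (C5 : ℝ) = 1 / δ + 2 * B' * (1 + Real.log C1) ^ 2 + B := hC5
    linarith only [g1, g2, g3, g4, g5, g6, hlδ]
  have hkey2 : y ^ B / t < δ * Real.exp (-(B' * (1 + Real.log k) ^ 2)) :=
    (Real.log_lt_log_iff (by positivity) (by positivity)).1 hkey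
  have hfin : y ^ B / t < |(q : ℝ) * (-α * h) - p| := by
    rcases lt_or_gt_of_ne h0 with h5 | h5
    · have h6 := hlow k hk1 p
      have e : |(k : ℝ) * α - p| = |(q : ℝ) * (-α * h) - p| := by
        rw [hk]
        push_cast
        rw [habs, abs_of_neg (by exact_mod_cast h5 : (h : ℝ) < 0)]
        congr 1
        ring
      rw [← e]
      linarith
    · have h6 := hlow k hk1 (-p)
      have e : |(k : ℝ) * α - ((-p : ℤ) : ℝ)| = |(q : ℝ) * (-α * h) - p| := by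
        rw [hk]
        push_cast
        rw [habs, abs_of_pos (by exact_mod_cast h5 : (0 : ℝ) < (h : ℝ)), ← abs_neg]
        congr 1
        ring
      rw [← e]
      linarith
  have e2 : |-α * h - p / q| = |(q : ℝ) * (-α * h) - p| / q := by
    rw [eq_div_iff hq0.ne']
    have : |-α * h - p / q| * q = |(-α * h - p / q) * q| := by rw [abs_mul, abs_of_pos hq0]
    rw [this]
    congr 1
    field_simp
  have e3 : y ^ B / (t * q) = y ^ B / t / q := by rw [div_div]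
  rw [e2, e3]
  exact div_lt_div_of_pos_right hfin hq0

/-- the exponential sums over primes -/
theorem pr_exp {a : ℕ} (ha : a.Prime) (ha2 : a ≠ 2) (U W : ℕ) : ∃ N0 : ℕ, ∀ N : ℕ, N0 ≤ N →
    ∀ h : ℤ, h ≠ 0 → |(h : ℝ)| ≤ 8 * Real.log N ^ W → ∀ N' ≤ N,
    ‖∑ p ∈ PR N', ee (-(Real.log 2 / Real.log a) * ((h : ℝ) * (p : ℝ)))‖ ≤ N / Real.log N ^ U := by
  obtain ⟨B', δ, hB', hδ, hδ1, hlow⟩ := lower_prime ha ha2
  obtain ⟨B, N1, hmin⟩ := minor_use U
  obtain ⟨N2, hN2, h2⟩ := log_pow_small (2 * U) 324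
  obtain ⟨Y0, hY00, hcond⟩ := cond hδ hB' hlow B W
  set α : ℝ := Real.log 2 / Real.log a with hα
  set Y1 : ℝ := 9 * Y0 + 8 * 3 ^ (2 * U + 1) with hY1
  refine ⟨max (max N2 (N1 + 10) ^ 4) ⌈Real.exp Y1⌉₊, ?_⟩
  intro N hN h h0 hW N' hN'
  have hNa : (max N2 (N1 + 10)) ^ 4 ≤ N := (le_max_left _ _).trans hN
  have hNb : Real.exp Y1 ≤ N := by
    have h1 := Nat.le_ceil (Real.exp Y1)
    have h3 : (⌈Real.exp Y1⌉₊ : ℝ) ≤ N := by exact_mod_cast (le_max_right _ _).trans hN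
    linarith
  have hNc : max N2 (N1 + 10) ≤ N := (Nat.le_self_pow (by norm_num) _).trans hNa
  have hN10 : 10 ≤ N := by
    have := le_max_right N2 (N1 + 10)
    omega
  have hN0 : (0 : ℝ) < N := by exact_mod_cast (by omega : 0 < N)
  obtain ⟨ℓ, hℓ⟩ : ∃ ℓ : ℝ, ℓ = Real.log N := ⟨_, rfl⟩
  have hℓY : Y1 ≤ ℓ := by
    rw [hℓ, Real.le_log_iff_exp_le hN0]
    exact hNb
  have h3U : (1 : ℝ) ≤ 3 ^ (2 * U + 1) := one_le_pow₀ (by norm_num)
  have hℓ1 : 1 ≤ ℓ := by linarith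
  have hℓ0 : 0 < ℓ := by linarith
  obtain ⟨_, h324⟩ := h2 N ((le_max_left _ _).trans hNc)
  rw [← hℓ] at h324 hW ⊢
  have hsq : 18 * ℓ ^ U ≤ √(N : ℝ) := by
    apply Real.le_sqrt_of_sq_le
    calc (18 * ℓ ^ U) ^ 2 = 324 * ℓ ^ (2 * U) := by rw [mul_pow, ← pow_mul, mul_comm U 2]; norm_num
      _ ≤ _ := h324
  have hsqN : √(N : ℝ) * √(N : ℝ) = N := Real.mul_self_sqrt hN0.le
  have hs0 : 0 < √(N : ℝ) := Real.sqrt_pos.2 hN0
  have h9 : 9 * √(N : ℝ) ≤ N / ℓ ^ U / 2 := by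
    rw [div_div, le_div_iff₀ (by positivity)]
    nlinarith only [hsq, hsqN, hs0]
  rcases Nat.lt_or_ge N' (Nat.sqrt N + 1) with hs | hs
  · -- few terms
    have h1 : ‖∑ p ∈ PR N', ee (-α * ((h : ℝ) * (p : ℝ)))‖ ≤ √(N : ℝ) := by
      refine (norm_sum_le _ _).trans ?_
      simp only [norm_ee, sum_const, nsmul_eq_mul, mul_one]
      have h3 : (PR N').card ≤ N' := by
        unfold PR
        refine (card_filter_le _ _).trans ?_
        simp
      have h4 : ((PR N').card : ℝ) ≤ Nat.sqrt N := by exact_mod_cast h3.trans (by omega)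
      exact h4.trans (Real.nat_sqrt_le_real_sqrt)
    refine h1.trans ?_
    have : 0 ≤ N / ℓ ^ U / 2 := by positivity
    linarith
  · -- many terms
    have hmax10 : N1 + 10 ≤ max N2 (N1 + 10) := le_max_right _ _
    have hsqr1 : (N1 + 10) ^ 2 ≤ Nat.sqrt N := by
      rw [Nat.le_sqrt]
      calc (N1 + 10) ^ 2 * (N1 + 10) ^ 2 = (N1 + 10) ^ 4 := by ring
        _ ≤ (max N2 (N1 + 10)) ^ 4 := Nat.pow_le_pow_left hmax10 4
        _ ≤ N := hNa
    have hN'9 : 9 ≤ N' := by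
      have : 10 ^ 2 ≤ (N1 + 10) ^ 2 := Nat.pow_le_pow_left (by omega) 2
      omega
    have hlN' : ℓ ≤ 3 * Real.log N' := by
      rw [hℓ]
      exact (log_three (by omega : 9 ≤ N) (by omega)).2
    have hpo := prime_of U (g := fun n => ee (-α * ((h : ℝ) * (n : ℝ)))) (fun n => (norm_ee _).le)
      hN'9 (by
        intro t ht htN
        obtain ⟨ht3, hlt⟩ := log_three hN'9 ht
        have htN1 : N1 ≤ t := by
          have h3 : N1 + 10 ≤ Nat.sqrt N' := by
            rw [Nat.le_sqrt, ← sq]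
            omega
          omega
        have hyY : Y0 ≤ Real.log t := by
          have : 0 ≤ 8 * (3 : ℝ) ^ (2 * U + 1) := by positivity
          linarith
        have hℓy : ℓ ≤ 9 * Real.log t := by linarith
        have h4 := hmin t htN1 (-α * h) (fun q hq hqB p =>
          hcond t (Real.log t) (by omega) rfl hyY h h0 (hW.trans
            (mul_le_mul_of_nonneg_left (pow_le_pow_left₀ hℓ0.le hℓy W) (by norm_num))) q hq hqB p)
        refine le_trans (le_of_eq ?_) h4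
        congr 1
        refine sum_congr rfl fun n _ => ?_
        rw [← ee_mk_chr (-α * ((h : ℝ) * (n : ℝ))) (-α * h) n (by ring)])
    refine hpo.trans ?_
    have hN'r : (N' : ℝ) ≤ N := by exact_mod_cast hN'
    have g1 : 9 * √(N' : ℝ) ≤ 9 * √(N : ℝ) :=
      mul_le_mul_of_nonneg_left (Real.sqrt_le_sqrt hN'r) (by norm_num)
    have hlN'0 : 0 < Real.log N' := by linarith
    have g2 : 4 * 3 ^ U * (N' : ℝ) / Real.log N' ^ (U + 1) ≤ N / ℓ ^ U / 2 := by
      have h4 : ℓ ^ (U + 1) ≤ (3 * Real.log N') ^ (U + 1) := pow_le_pow_left₀ hℓ0.le hlN' _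
      rw [mul_pow] at h4
      have h5 : 4 * 3 ^ U * (N' : ℝ) / Real.log N' ^ (U + 1) ≤
          4 * 3 ^ U * 3 ^ (U + 1) * N / ℓ ^ (U + 1) := by
        rw [div_le_div_iff₀ (by positivity) (by positivity)]
        calc 4 * 3 ^ U * (N' : ℝ) * ℓ ^ (U + 1) ≤
              4 * 3 ^ U * N * (3 ^ (U + 1) * Real.log N' ^ (U + 1)) := by
              apply mul_le_mul _ h4 (by positivity) (by positivity)
              exact mul_le_mul_of_nonneg_left hN'r (by positivity)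
          _ = _ := by ring
      refine h5.trans ?_
      rw [div_div, div_le_div_iff₀ (by positivity) (by positivity)]
      have h6 : 8 * (3 : ℝ) ^ (2 * U + 1) ≤ ℓ := by
        have : 0 ≤ 9 * Y0 := by positivity
        linarith
      have h7 : (3 : ℝ) ^ U * 3 ^ (U + 1) = 3 ^ (2 * U + 1) := by
        rw [← pow_add]; congr 1; ring
      calc 4 * 3 ^ U * 3 ^ (U + 1) * (N : ℝ) * (ℓ ^ U * 2) =
            (8 * (3 ^ U * 3 ^ (U + 1))) * (N * ℓ ^ U) := by ring
        _ = (8 * 3 ^ (2 * U + 1)) * (N * ℓ ^ U) := by rw [h7]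
        _ ≤ ℓ * (N * ℓ ^ U) := mul_le_mul_of_nonneg_right h6 (by positivity)
        _ = _ := by rw [pow_succ]; ring
    linarith

/-- **prime times** -/
theorem prime_benford {a : ℕ} (ha : a.Prime) (ha2 : a ≠ 2) (W : ℕ) : ∃ C : ℝ, 0 < C ∧
    ∀ b : ℤ, b % 2 = 1 → ∀ (x : ℤ) (K N : ℕ), Set.InjOn (fun i => (T a b)^[i] x) (Set.Iio K) →
    N < K → ∀ A B : ℝ, 0 ≤ A → A ≤ B → B ≤ 1 →
    |∑ p ∈ PR N, chi A B (Real.logb a |(((T a b)^[p] x : ℤ) : ℝ)|) - (PR N).card * (B - A)| ≤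
      C * |(b : ℝ)| * (PR N).card * (1 / Real.log N ^ W) := by
  obtain ⟨N1, h1⟩ := pr_exp ha ha2 (7 * W + 2) (3 * W)
  obtain ⟨N2, h2⟩ := pi_low
  set N0 : ℕ := max (max N1 N2) 3 with hN0
  have hN01 : N1 ≤ N0 := (le_max_left _ _).trans (le_max_left _ _)
  have hN02 : N2 ≤ N0 := (le_max_right _ _).trans (le_max_left _ _)
  have hN03 : 3 ≤ N0 := le_max_right _ _
  have hlN0 : 0 ≤ Real.log N0 := Real.log_natCast_nonneg _
  refine ⟨3609 + Real.log N0 ^ W, by positivity, ?_⟩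
  intro b hb x K N hinj hNK A B hA hAB hB
  have H : Par (a : ℤ) b := by
    have h2 := ha.eq_two_or_odd
    have h3 := ha.two_le
    exact ⟨by omega, by omega, hb⟩
  have hbb := H.b_ge
  obtain ⟨J, hJ⟩ : ∃ J : ℕ, J = Nat.primeCounting N := ⟨_, rfl⟩
  have hcard : ((PR N).card : ℝ) = J := by rw [PR_card, hJ]
  rw [hcard, ← prime_sum, ← hJ]
  have hJ0 : (0 : ℝ) ≤ J := Nat.cast_nonneg J
  rcases Nat.lt_or_ge N N0 with hN | hN
  · -- trivial bound
    have h3 : 0 ≤ ∑ j ∈ range J, chi A B (Real.logb a |(((T a b)^[pr j] x : ℤ) : ℝ)|) :=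
      sum_nonneg fun j _ => chi_nonneg _ _ _
    have h4 : ∑ j ∈ range J, chi A B (Real.logb a |(((T a b)^[pr j] x : ℤ) : ℝ)|) ≤ J := by
      calc _ ≤ ∑ j ∈ range J, (1 : ℝ) := sum_le_sum fun j _ => chi_le_one _ _ _
        _ = J := by simp
    have h5 : |∑ j ∈ range J, chi A B (Real.logb a |(((T a b)^[pr j] x : ℤ) : ℝ)|) -
        J * (B - A)| ≤ J := by
      rw [abs_le]
      constructor
      · nlinarith
      · nlinarith [mul_nonneg hJ0 (sub_nonneg.2 hAB)]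
    refine h5.trans ?_
    rcases Nat.eq_zero_or_pos J with h0 | h0
    · rw [h0]
      simp
    have hN2 : 2 ≤ N := by
      by_contra h6
      have : Nat.primeCounting N = 0 := by
        rw [Nat.primeCounting_eq_zero_iff]
        omega
      omega
    have hlN : 0 < Real.log N := Real.log_pos (by exact_mod_cast hN2)
    have hlN2 : Real.log N ≤ Real.log N0 :=
      Real.log_le_log (by exact_mod_cast (by omega : 0 < N)) (by exact_mod_cast hN.le)
    have h6 : Real.log N ^ W ≤ (3609 + Real.log N0 ^ W) * |(b : ℝ)| := by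
      have h7 := pow_le_pow_left₀ hlN.le hlN2 W
      have h8 : 0 ≤ Real.log N0 ^ W := by positivity
      nlinarith
    rw [mul_one_div, le_div_iff₀ (by positivity)]
    nlinarith [mul_le_mul_of_nonneg_left h6 hJ0]
  · have hNr : (3 : ℝ) ≤ N := by exact_mod_cast hN03.trans hN
    obtain ⟨ℓ, hℓ⟩ : ∃ ℓ : ℝ, ℓ = Real.log N := ⟨_, rfl⟩
    have hℓ1 : 1 ≤ ℓ := by
      rw [hℓ, Real.le_log_iff_exp_le (by linarith)]
      have := Real.exp_one_lt_d9
      linarith
    have hℓ0 : 0 < ℓ := by linarith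
    have hJN : (N : ℝ) ≤ 2 * ℓ * J := by
      have := h2 N (hN02.trans hN)
      rw [hcard, ← hℓ, div_le_iff₀ (by positivity)] at this
      linarith
    rw [← hℓ]
    obtain ⟨k, hk⟩ : ∃ k : ℕ, k = ⌈ℓ ^ W⌉₊ := ⟨_, rfl⟩
    have hℓW : 1 ≤ ℓ ^ W := one_le_pow₀ hℓ1
    have hk1 : ℓ ^ W ≤ k := by rw [hk]; exact Nat.le_ceil _
    have hk2 : (k : ℝ) ≤ 2 * ℓ ^ W := by
      have := Nat.ceil_lt_add_one (show 0 ≤ ℓ ^ W by positivity)
      rw [← hk] at this
      linarith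
    have hk0 : (0 : ℝ) < k := by linarith
    have hkn : 1 ≤ k := by
      have : (0 : ℝ) < k := hk0
      have : 0 < k := by exact_mod_cast this
      omega
    have hk1' : (1 : ℝ) ≤ k := by exact_mod_cast hkn
    have hk3 : (k : ℝ) ^ 3 ≤ 8 * ℓ ^ (3 * W) := by
      calc (k : ℝ) ^ 3 ≤ (2 * ℓ ^ W) ^ 3 := pow_le_pow_left₀ hk0.le hk2 3
        _ = _ := by rw [mul_pow, ← pow_mul, mul_comm W 3]; norm_num
    obtain ⟨M, hM⟩ : ∃ M : ℝ, M = N / ℓ ^ (7 * W + 2) := ⟨_, rfl⟩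
    have hM0 : 0 ≤ M := by rw [hM]; positivity
    obtain ⟨V, hV⟩ : ∃ V : ℝ, V = 4 * |(b : ℝ)| * (3 + 2 * Real.log ((N + 1 : ℕ) : ℝ)) := ⟨_, rfl⟩
    have hV0 : 0 ≤ V := by
      have h3 : 0 ≤ Real.log ((N + 1 : ℕ) : ℝ) := Real.log_natCast_nonneg _
      rw [hV]
      positivity
    have hV1 : V ≤ 28 * |(b : ℝ)| * ℓ := by
      have h3 : Real.log ((N + 1 : ℕ) : ℝ) ≤ 2 * ℓ := by
        rw [hℓ, ← Real.log_rpow (by linarith)]
        apply Real.log_le_log (by positivity)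
        push_cast
        norm_num
        nlinarith
      rw [hV]
      have h4 : 3 + 2 * Real.log ((N + 1 : ℕ) : ℝ) ≤ 7 * ℓ := by linarith
      calc 4 * |(b : ℝ)| * (3 + 2 * Real.log ((N + 1 : ℕ) : ℝ)) ≤ 4 * |(b : ℝ)| * (7 * ℓ) :=
            mul_le_mul_of_nonneg_left h4 (by positivity)
        _ = _ := by ring
    have hexp : ∀ h : Fin 1 → ℤ, h ≠ 0 → (∀ i, |h i| < ((k ^ 3 : ℕ) : ℤ)) →
        ‖∑ n ∈ range J, ee (∑ i, h i * Real.logb a |(((T a b)^[pr n] x : ℤ) : ℝ)|)‖ ≤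
          M * (1 + (k : ℝ) ^ 3 * V) := by
      intro h hne hlt
      have hne0 : h 0 ≠ 0 := by
        intro h3
        apply hne
        funext i
        rw [Fin.fin_one_eq_zero i, h3]
        rfl
      have hlt0 : |((h 0 : ℤ) : ℝ)| ≤ (k : ℝ) ^ 3 := by
        have := (hlt 0).le
        have h3 : ((|h 0| : ℤ) : ℝ) ≤ (((k ^ 3 : ℕ) : ℤ) : ℝ) := by exact_mod_cast this
        push_cast at h3
        exact h3
      have h3 := main_sum H x (N + 1) (hinj.mono (Set.Iio_subset_Iio (by omega)))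
        (fun (_ : Fin 1) j => pr j) (fun _ => pr_mono.monotone) J (by
          intro _ j hj
          rw [hJ] at hj
          have := pr_le hj
          omega) h (M := M) (by
          intro N' hN'
          rcases Nat.eq_zero_or_pos N' with h4 | h4
          · rw [h4]
            simpa using hM0
          · have h5 : N' = Nat.primeCounting (pr (N' - 1)) := by
              rw [count_pr]
              omega
            have h6 : pr (N' - 1) ≤ N := pr_le (by omega)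
            have h7 := h1 N (hN01.trans hN) (h 0) hne0 (by
              rw [← hℓ]
              exact hlt0.trans hk3) (pr (N' - 1)) h6
            rw [← prime_sum, ← h5, ← hℓ, ← hM] at h7
            simp only [Fin.sum_univ_one, Int.cast_natCast]
            exact h7)
      refine h3.trans ?_
      rw [← hV]
      apply mul_le_mul_of_nonneg_left _ hM0
      simp only [Fin.sum_univ_one]
      have := mul_le_mul_of_nonneg_right hlt0 hV0
      linarith
    have hdisc := disc (r := 1) (K := k ^ 3) (J := J) (Nat.one_le_pow _ _ hkn)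
      (fun _ n => Real.logb a |(((T a b)^[pr n] x : ℤ) : ℝ)|)
      (E := M * (1 + (k : ℝ) ^ 3 * V)) (by positivity) (show (0 : ℝ) < 1 / k by positivity) hexp
      (fun _ => A) (fun _ => B) (fun _ => hA) (fun _ => hAB) (fun _ => hB)
    simp only [Fin.prod_univ_one, pow_one, Nat.cast_one, one_mul] at hdisc
    refine hdisc.trans ?_
    push_cast
    have g1 : 1 / (4 * (1 / (k : ℝ)) ^ 2 * (k : ℝ) ^ 3) + (4 * (1 / (k : ℝ)) + 4 / (k : ℝ) ^ 3) ≤
        9 / ℓ ^ W := by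
      have e1 : 1 / (4 * (1 / (k : ℝ)) ^ 2 * (k : ℝ) ^ 3) = (1 / 4) / k := by field_simp
      have e2 : 4 / (k : ℝ) ^ 3 ≤ 4 / k := by
        apply div_le_div_of_nonneg_left (by norm_num) hk0
        exact le_self_pow₀ hk1' (by norm_num)
      rw [e1]
      have e3 : (1 / 4) / (k : ℝ) + (4 * (1 / (k : ℝ)) + 4 / k) = (33 / 4) / k := by
        field_simp
        norm_num
      have e4 : (33 / 4) / (k : ℝ) ≤ 9 / ℓ ^ W := by
        rw [div_le_div_iff₀ hk0 (by positivity)]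
        nlinarith
      linarith
    have g2 := mul_le_mul_of_nonneg_right g1 hJ0
    have g3 : (k : ℝ) ^ 3 * (M * (1 + (k : ℝ) ^ 3 * V)) ≤ 3600 * |(b : ℝ)| * (J / ℓ ^ W) := by
      have e1 : 1 + (k : ℝ) ^ 3 * V ≤ 225 * |(b : ℝ)| * ℓ ^ (3 * W + 1) := by
        have f1 : (k : ℝ) ^ 3 * V ≤ (8 * ℓ ^ (3 * W)) * (28 * |(b : ℝ)| * ℓ) :=
          mul_le_mul hk3 hV1 hV0 (by positivity)
        have f2 : 1 ≤ |(b : ℝ)| * ℓ ^ (3 * W + 1) :=
          one_le_mul_of_one_le_of_one_le hbb (one_le_pow₀ hℓ1)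
        have f3 : (8 * ℓ ^ (3 * W)) * (28 * |(b : ℝ)| * ℓ) = 224 * (|(b : ℝ)| * ℓ ^ (3 * W + 1)) := by
          rw [pow_succ]; ring
        linarith
      calc (k : ℝ) ^ 3 * (M * (1 + (k : ℝ) ^ 3 * V)) ≤
            (8 * ℓ ^ (3 * W)) * (M * (225 * |(b : ℝ)| * ℓ ^ (3 * W + 1))) := by
            apply mul_le_mul hk3 _ (by positivity) (by positivity)
            exact mul_le_mul_of_nonneg_left e1 hM0
        _ = 1800 * |(b : ℝ)| * (ℓ ^ (3 * W) * ℓ ^ (3 * W + 1)) * N / ℓ ^ (7 * W + 2) := by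
            rw [hM]; ring
        _ ≤ 1800 * |(b : ℝ)| * (ℓ ^ (3 * W) * ℓ ^ (3 * W + 1)) * (2 * ℓ * J) / ℓ ^ (7 * W + 2) := by
            apply div_le_div_of_nonneg_right _ (by positivity)
            exact mul_le_mul_of_nonneg_left hJN (by positivity)
        _ = 3600 * |(b : ℝ)| * (J / ℓ ^ W) := by
            have e2 : ℓ ^ (7 * W + 2) = ℓ ^ (3 * W) * ℓ ^ (3 * W + 1) * ℓ * ℓ ^ W := by
              rw [← pow_add, ← pow_succ, ← pow_add]
              congr 1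
              ring
            rw [e2]
            field_simp
            ring
    have g4 : 0 ≤ Real.log N0 ^ W := by positivity
    have g5 : (9 / ℓ ^ W) * J + 3600 * |(b : ℝ)| * (J / ℓ ^ W) ≤ 3609 * |(b : ℝ)| * (J / ℓ ^ W) := by
      have : 0 ≤ (J : ℝ) / ℓ ^ W := by positivity
      have e3 : (9 / ℓ ^ W) * (J : ℝ) = 9 * (J / ℓ ^ W) := by ring
      rw [e3]
      nlinarith
    calc _ ≤ (9 / ℓ ^ W) * J + 3600 * |(b : ℝ)| * (J / ℓ ^ W) := add_le_add g2 g3
      _ ≤ 3609 * |(b : ℝ)| * (J / ℓ ^ W) := g5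
      _ ≤ (3609 + Real.log N0 ^ W) * |(b : ℝ)| * (J / ℓ ^ W) := by
          apply mul_le_mul_of_nonneg_right _ (by positivity)
          apply mul_le_mul_of_nonneg_right _ (abs_nonneg _)
          linarith
      _ = _ := by ring

end Pool.Agent.W5h88.BP
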